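import Pool.Agent.L5helper76.PT.Pat

/-!
# Analysis: lengths that are not good, the asymptotic form, growth rates of subclasses
-/

set_option autoImplicit false

namespace PTK

open Finset Filter Topology KN KNB KNM
open scoped Classical

noncomputable section

/-- `n ^ (2 / 3)` is small compared with `n` -/
theorem pow_small (c : ℝ) {l : ℝ} (hl : 0 < l) : ∀ᶠ n : ℕ in atTop,
    c * (n : ℝ) ^ (2 / 3 : ℝ) ≤ l * n := by
  have h1 : Tendsto (fun x : ℝ => x ^ (-(1 / 3 : ℝ))) atTop (𝓝 0) :=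
    tendsto_rpow_neg_atTop (by norm_num)
  have h3 := (h1.comp tendsto_natCast_atTop_atTop).const_mul c
  rw [mul_zero] at h3
  filter_upwards [h3.eventually (gt_mem_nhds hl), eventually_gt_atTop 0] with n h3 hn
  have hn' : (0 : ℝ) < n := by exact_mod_cast hn
  simp only [Function.comp] at h3
  have e : (n : ℝ) ^ (2 / 3 : ℝ) = n * (n : ℝ) ^ (-(1 / 3 : ℝ)) := by
    nth_rewrite 2 [← Real.rpow_one (n : ℝ)]
    rw [← Real.rpow_add hn']
    norm_num
  rw [e]
  nlinarith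

/-- powers are small compared with exponentials -/
theorem log_small (s : ℝ) {l : ℝ} (hl : 0 < l) : ∀ᶠ n : ℕ in atTop,
    s * Real.log n ≤ l * n := by
  have h1 : Tendsto (fun x : ℝ => Real.log x / x) atTop (𝓝 0) := by
    have := Real.isLittleO_log_id_atTop
    exact this.tendsto_div_nhds_zero
  have h3 := (h1.comp tendsto_natCast_atTop_atTop).const_mul s
  rw [mul_zero] at h3
  filter_upwards [h3.eventually (gt_mem_nhds hl), eventually_gt_atTop 0] with n h3 hn
  have hn' : (0 : ℝ) < n := by exact_mod_cast hn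
  simp only [Function.comp] at h3
  have h4 : s * (Real.log n / n) * n ≤ l * n := mul_le_mul_of_nonneg_right h3.le hn'.le
  have e : s * (Real.log n / n) * n = s * Real.log n := by
    field_simp
  rwa [e] at h4

/-- exponentially small against stretched exponentials and powers -/
theorem exp_small (δ c s A : ℝ) (hδ0 : 0 < δ) (hδ1 : δ < 1) (hA : 0 < A) :
    ∀ᶠ n : ℕ in atTop, (1 - δ) ^ n ≤ A * (n : ℝ) ^ s * Real.exp (-(c * (n : ℝ) ^ (2 / 3 : ℝ))) := by
  obtain ⟨l, hl⟩ : ∃ l : ℝ, l = -Real.log (1 - δ) := ⟨_, rfl⟩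
  have hl0 : 0 < l := by
    rw [hl]
    have := Real.log_neg (show 0 < 1 - δ by linarith) (by linarith)
    linarith
  have hc : Tendsto (fun n : ℕ => l / 4 * (n : ℝ)) atTop atTop :=
    Tendsto.const_mul_atTop (by linarith) tendsto_natCast_atTop_atTop
  filter_upwards [pow_small c (show 0 < l / 4 by linarith),
    log_small (-s) (show 0 < l / 4 by linarith), hc.eventually_ge_atTop (-Real.log A),
    eventually_gt_atTop 0] with n h1 h2 h3 hn
  have hn' : (0 : ℝ) < n := by exact_mod_cast hn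
  have h1d : 0 < 1 - δ := by linarith
  rw [← Real.log_le_log_iff (by positivity) (by positivity), Real.log_mul (by positivity)
    (by positivity), Real.log_mul (by positivity) (by positivity), Real.log_exp, Real.log_pow,
    Real.log_rpow hn']
  have e : Real.log (1 - δ) = -l := by rw [hl]; ring
  rw [e]
  have h4 : 0 < l * n := by positivity
  nlinarith

theorem tj : Tendsto (fun j : ℕ => 2 * j) atTop atTop :=
  tendsto_atTop_mono (fun j => by simp only [id]; omega) tendsto_id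

/-- the asymptotic form makes all lengths good -/
theorem form_good {Q : List Dir → Prop} (hg : 0 < gr Q) {δ : ℝ} (h0 : 0 < δ) (h1 : δ < 1)
    {A α : ℝ} (hA : 0 < A)
    (h : Tendsto (fun j : ℕ => pq Q (2 * j) / ((2 * j : ℝ) ^ (α - 3) * gr Q ^ (2 * j))) atTop
      (𝓝 A)) : ∀ᶠ j : ℕ in atTop, ((1 - δ) * gr Q) ^ (2 * j) ≤ pq Q (2 * j) := by
  filter_upwards [h.eventually (lt_mem_nhds (show A / 2 < A by linarith)),
    tj.eventually (exp_small δ 0 (α - 3) (A / 2) h0 h1 (by linarith)),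
    eventually_gt_atTop 0] with j h2 h3 hj
  have hj0 : (0 : ℝ) < 2 * j := by
    have : (0 : ℝ) < j := by exact_mod_cast hj
    linarith
  have hp : 0 < gr Q ^ (2 * j) := pow_pos hg _
  have hr : (0 : ℝ) < (2 * j : ℝ) ^ (α - 3) := Real.rpow_pos_of_pos hj0 _
  rw [lt_div_iff₀ (by positivity)] at h2
  rw [zero_mul, neg_zero, Real.exp_zero, mul_one] at h3
  push_cast at h3
  calc ((1 - δ) * gr Q) ^ (2 * j) = (1 - δ) ^ (2 * j) * gr Q ^ (2 * j) := mul_pow _ _ _
    _ ≤ (A / 2 * (2 * j : ℝ) ^ (α - 3)) * gr Q ^ (2 * j) := mul_le_mul_of_nonneg_right h3 hp.le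
    _ = A / 2 * ((2 * j : ℝ) ^ (α - 3) * gr Q ^ (2 * j)) := by ring
    _ ≤ _ := h2.le

/-- the count at a length that is not good is small -/
theorem not_good {Q : List Dir → Prop} (hg : 0 < gr Q) {δ : ℝ} (h0 : 0 < δ) (h1 : δ < 1)
    (c : ℝ) : ∀ᶠ j : ℕ in atTop, ¬ ((1 - δ) * gr Q) ^ (2 * j) ≤ pq Q (2 * j) →
      (a Q (2 * j) : ℝ) ≤ Real.exp (-(c * (2 * j : ℝ) ^ (2 / 3 : ℝ))) * gr Q ^ (2 * j) := by
  filter_upwards [tj.eventually (exp_small δ c (-1) (1 / 2) h0 h1 (by norm_num)),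
    eventually_gt_atTop 0] with j h2 hj h3
  rw [not_le] at h3
  have hj0 : (0 : ℝ) < 2 * j := by
    have : (0 : ℝ) < j := by exact_mod_cast hj
    linarith
  have hp : 0 < gr Q ^ (2 * j) := pow_pos hg _
  unfold pq at h3
  push_cast at h2 h3
  rw [div_lt_iff₀ (by positivity), mul_pow] at h3
  rw [Real.rpow_neg_one] at h2
  calc (a Q (2 * j) : ℝ) ≤ (1 - δ) ^ (2 * j) * gr Q ^ (2 * j) * (2 * (2 * j)) := h3.le
    _ ≤ (1 / 2 * (2 * j : ℝ)⁻¹ * Real.exp (-(c * (2 * j : ℝ) ^ (2 / 3 : ℝ)))) * gr Q ^ (2 * j) *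
        (2 * (2 * j)) := by
        apply mul_le_mul_of_nonneg_right _ (by positivity)
        exact mul_le_mul_of_nonneg_right h2 hp.le
    _ = Real.exp (-(c * (2 * j : ℝ) ^ (2 / 3 : ℝ))) * gr Q ^ (2 * j) := by
        field_simp

/-- strict inequality of the growth rates for rare subclasses of a class closed under sums -/
theorem rare_lt {Q : List Dir → Prop} (hQ : KClass Q) (hne : ∃ w, SAP w ∧ Q w) (hc : CSum Q)
    {b : ℕ → ℝ} {c : ℝ} (hc0 : 0 < c) (H : ∀ᶠ j : ℕ in atTop, b (2 * j) ≤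
      Real.exp (-(c * (2 * j : ℝ) ^ (2 / 3 : ℝ))) * a Q (2 * j)) (D μ : ℝ)
    (hD : ∃ᶠ j : ℕ in atTop, μ ^ (2 * j) ≤ (2 * j : ℝ) ^ D * b (2 * j)) : μ < gr Q := by
  obtain ⟨hg1, -, -⟩ := gr_bounds Q hQ hne
  have hg : 0 < gr Q := by linarith
  by_contra hcon
  rw [not_lt] at hcon
  have ht : Tendsto (fun x : ℝ => x ^ (D + 1) * Real.exp (-(c * x ^ (2 / 3 : ℝ)))) atTop
      (𝓝 0) := by
    have h4 : Tendsto (fun y : ℝ => y ^ (3 / 2 * (D + 1)) * Real.exp (-c * y)) atTop (𝓝 0) :=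
      tendsto_rpow_mul_exp_neg_mul_atTop_nhds_zero (3 / 2 * (D + 1)) c hc0
    have h5 : Tendsto (fun x : ℝ => x ^ (2 / 3 : ℝ)) atTop atTop :=
      tendsto_rpow_atTop (by norm_num)
    refine (h4.comp h5).congr' ?_
    filter_upwards [eventually_gt_atTop 0] with x hx
    simp only [Function.comp]
    rw [← Real.rpow_mul hx.le, neg_mul]
    congr 2
    ring
  have ht2 : Tendsto (fun j : ℕ => (2 * j : ℝ)) atTop atTop :=
    Tendsto.const_mul_atTop (by norm_num) tendsto_natCast_atTop_atTop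
  have h6 := (ht.comp ht2).eventually (gt_mem_nhds (show (0 : ℝ) < 1 / 32 by norm_num))
  obtain ⟨j, hj1, hj2, hj3, hj4, hj5⟩ :=
    (hD.and_eventually (H.and (h6.and ((eventually_gt_atTop 0).and
      (Pool.Agent.R945.KR.ub_csum Q hQ hne hc))))).exists
  have hp : 0 < gr Q ^ (2 * j) := pow_pos hg _
  have hj0 : (0 : ℝ) < 2 * j := by
    have : (0 : ℝ) < j := by exact_mod_cast hj4
    linarith
  unfold TH966.KS.yq at hj5
  rw [div_le_iff₀ hp] at hj5
  unfold pq at hj5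
  push_cast at hj5
  rw [div_le_iff₀ (by positivity)] at hj5
  have hle : gr Q ^ (2 * j) ≤ μ ^ (2 * j) := pow_le_pow_left₀ hg.le hcon _
  simp only [Function.comp] at hj3
  have hr : (0 : ℝ) < (2 * j : ℝ) ^ D := Real.rpow_pos_of_pos hj0 _
  have h9 : gr Q ^ (2 * j) < gr Q ^ (2 * j) := by
    calc gr Q ^ (2 * j) ≤ μ ^ (2 * j) := hle
      _ ≤ (2 * j : ℝ) ^ D * b (2 * j) := hj1
      _ ≤ (2 * j : ℝ) ^ D *
          (Real.exp (-(c * (2 * j : ℝ) ^ (2 / 3 : ℝ))) * a Q (2 * j)) :=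
        mul_le_mul_of_nonneg_left hj2 hr.le
      _ ≤ (2 * j : ℝ) ^ D *
          (Real.exp (-(c * (2 * j : ℝ) ^ (2 / 3 : ℝ))) *
            (16 * gr Q ^ (2 * j) * (2 * (2 * j)))) := by
        apply mul_le_mul_of_nonneg_left _ hr.le
        exact mul_le_mul_of_nonneg_left hj5 (Real.exp_pos _).le
      _ = 32 * ((2 * j : ℝ) ^ (D + 1) * Real.exp (-(c * (2 * j : ℝ) ^ (2 / 3 : ℝ)))) *
          gr Q ^ (2 * j) := by
        rw [Real.rpow_add hj0, Real.rpow_one]
        ring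
      _ < 1 * gr Q ^ (2 * j) := by
        apply mul_lt_mul_of_pos_right _ hp
        linarith
      _ = _ := one_mul _
  exact lt_irrefl _ h9

end

end PTK
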