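import Pool.Agent.L5helper43.KM.Cls

/-!
# Counting words with many blocks, uniformly in the knot type of the base, with a further property
of the words

Adapted from `L5helper86/KB/Count` and `L5helper43/KM/Cnt`.
-/

set_option autoImplicit false

namespace PTK

open Finset Filter Topology KN KNB KNM
open scoped Classical

noncomputable section

open K3YCNT (bps box mem_box card_box bps_length mem_bps)

/-- valid words with the property `P N` -/
def VP (P : ℕ → List Sz → Prop) (k : List V) (T L : ℕ) (v : ℕ → List Dir) (N n : ℕ) :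
    Finset (List Sz) := (VQ k T L v N n).filter (P N)

theorem mem_VP {P : ℕ → List Sz → Prop} {k : List V} {T L : ℕ} {v : ℕ → List Dir} {N n : ℕ}
    {W : List Sz} : W ∈ VP P k T L v N n ↔ W ∈ VQ k T L v N n ∧ P N W := by
  unfold VP
  rw [mem_filter]

/-- the property is kept by insertions -/
def Kp (P : ℕ → List Sz → Prop) (T L : ℕ) (v : ℕ → List Dir) : Prop :=
  ∀ (k : List V) (N n : ℕ), ∀ W ∈ VP P k T L v N n, ∀ (d f : Dir) (A B : List Sz), perp d f →
    RlZ W d f A B → P (N + 1) (A ++ .bl N .xp .zp :: B)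

open K3YCNT in
/-- the counting -/
theorem countP {P : ℕ → List Sz → Prop} {k : List V} (T L : ℕ) (v : ℕ → List Dir)
    (hP : Kp P T L v) (N n : ℕ) (C : List Sz → Finset Z3)
    (h : ∀ W ∈ VP P k T L v N n, ∀ x ∈ C W, ∃ (d f : Dir) (A B : List Sz), perp d f ∧
      VaQ k T L v (A ++ .bl N .xp .zp :: B) ∧ near 6 (pos (EZ T v B)) (Rp d f x) ∧
      RlZ W d f A B) :
    ∑ W ∈ VP P k T L v N n, (C W).card ≤
      (VP P k T L v (N + 1) n).card * (6 * (6 * (3 * 13 ^ 3))) := by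
  have hrtc := T_rtc_proof
  rw [← Finset.card_sigma]
  have hcard : (VP P k T L v (N + 1) n ×ˢ ((univ : Finset Dir) ×ˢ
      ((univ : Finset Dir) ×ˢ ((univ : Finset (Fin 3)) ×ˢ box 6 0)))).card =
      (VP P k T L v (N + 1) n).card * (6 * (6 * (3 * 13 ^ 3))) := by
    rw [card_product, card_product, card_product, card_product, card_box,
      card_univ, card_univ]
    have e1 : Fintype.card Dir = 6 := rfl
    have e2 : Fintype.card (Fin 3) = 3 := rfl
    rw [e1, e2]
  rw [← hcard]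
  apply Finset.card_le_card_of_forall_subsingleton
    (fun (p : (_ : List Sz) × Z3) (q : List Sz × Dir × Dir × Fin 3 × Z3) =>
      ∃ A B : List Sz, perp q.2.1 q.2.2.1 ∧ q.1 = A ++ .bl N .xp .zp :: B ∧ N ∉ lab A ∧
        Ra q.2.2.2.1 p.1 q.2.1 q.2.2.1 A B ∧
        q.2.2.2.2 = Rp q.2.1 q.2.2.1 p.2 - pos (EZ T v B))
  · rintro ⟨W, x⟩ hp
    rw [mem_sigma] at hp
    obtain ⟨hW, hx⟩ := hp
    simp only at hW hx
    obtain ⟨d, f, A, B, h1, h2, h3, h4⟩ := h W hW x hx
    have hPn := hP k N n W hW d f A B h1 h4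
    obtain ⟨i, hi⟩ := exists_Ra h4
    obtain ⟨k1, k2⟩ := Ra_lab hi
    rw [mem_VP] at hW
    obtain ⟨hW, -⟩ := hW
    rw [mem_VQ] at hW
    have hN : N ∉ lab A ++ lab B := by
      rw [k1]
      intro hN
      have := hW.2.1.mem_iff.1 hN
      exact absurd this (by simp)
    refine ⟨(A ++ .bl N .xp .zp :: B, d, f, i, Rp d f x - pos (EZ T v B)), ?_, A, B, h1, rfl,
      fun hA => hN (List.mem_append_left _ hA), hi, rfl⟩
    simp only [mem_product, mem_univ, true_and]
    refine ⟨?_, ?_⟩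
    · rw [mem_VP]
      refine ⟨?_, hPn⟩
      rw [mem_VQ, k2 N]
      refine ⟨hW.1, ?_, h2⟩
      rw [lab_append, lab_cons_bl]
      refine List.perm_middle.trans ?_
      rw [k1, List.range_succ]
      refine (hW.2.1.cons N).trans ?_
      exact (List.perm_append_singleton N (List.range N)).symm
    · rw [mem_box]
      unfold near at h3 ⊢
      obtain ⟨h5, h6, h7⟩ := h3
      rw [abs_sub_comm] at h5 h6 h7
      refine ⟨?_, ?_, ?_⟩
      · simpa using h5
      · simpa using h6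
      · simpa using h7
  · rintro ⟨W', d, f, i, y⟩ _ ⟨W₁, x₁⟩ h1 ⟨W₂, x₂⟩ h2
    simp only [Set.mem_ofPred_eq] at h1 h2
    obtain ⟨-, A, B, hp, e1, e2, e3, e4⟩ := h1
    obtain ⟨-, A', B', -, e1', e2', e3', e4'⟩ := h2
    rw [e1] at e1'
    obtain ⟨rfl, rfl⟩ := split_unique N A A' B B' _ _ _ _ e2 e2' e1'
    have hW : W₁ = W₂ := (List.map_injective_iff.2 (rZ_inj hrtc hp)) (Ra_unique e3 e3')
    have hx : x₁ = x₂ := by
      rw [e4] at e4'
      exact Rp_inj hrtc hp (sub_left_injective e4')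
    subst hW hx
    rfl

/-- the step from `N` to `N + 1` blocks, with constants which do not depend on anything else -/
theorem cntP (T L B R : ℕ) (hLL : LLat T L R) (hR : 1 ≤ R) :
    ∃ c δ : ℝ, 0 < c ∧ 0 < δ ∧
    ∃ n0 : ℕ, ∀ n ≥ n0, ∀ (k : List V) (v : ℕ → List Dir) (P : ℕ → List Sz → Prop), SmB L B v →
      Kp P T L v → ∀ N : ℕ, (N : ℝ) ≤ δ * (n : ℝ) ^ (2 / 3 : ℝ) →
      c * (n : ℝ) ^ (2 / 3 : ℝ) * (VP P k T L v N n).card ≤ (VP P k T L v (N + 1) n).card := by
  have hbas := e_bas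
  have hmany := d_many
  obtain ⟨c, hc, hev⟩ := hmany R hR
  obtain ⟨n0, hn0⟩ := eventually_atTop.1 hev
  set r := raZ T L B with hr
  set Q : ℕ := (6 * (6 * (3 * 13 ^ 3))) with hQ
  have hQ0 : (0 : ℝ) < Q := by
    rw [hQ]
    positivity
  refine ⟨c / (2 * Q), c / (2 * (2 * r + 1) ^ 3), by positivity, by positivity, n0, ?_⟩
  intro n hn k v P hv hP N hN
  set D := ((List.range N).map (fun i => (blk T (v i)).length - 1)).sum with hD
  set M0 : ℕ := N * (2 * r + 1) ^ 3 with hM0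
  have hn1 := hn0 (n + D) (by omega)
  have hn2 : (M0 : ℝ) ≤ c / 2 * (n : ℝ) ^ (2 / 3 : ℝ) := by
    have h3 : (0 : ℝ) < (2 * (r : ℝ) + 1) ^ 3 := by positivity
    have h4 := mul_le_mul_of_nonneg_right hN h3.le
    have h5 : c / (2 * (2 * (r : ℝ) + 1) ^ 3) * (n : ℝ) ^ (2 / 3 : ℝ) * (2 * (r : ℝ) + 1) ^ 3 =
        c / 2 * (n : ℝ) ^ (2 / 3 : ℝ) := by
      field_simp
    rw [h5] at h4
    rw [hM0]
    push_cast
    exact h4
  have hC : ∀ W : List Sz, ∃ C : Finset Z3, W ∈ VP P k T L v N n →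
      (c / 2 * (n : ℝ) ^ (2 / 3 : ℝ) ≤ C.card ∧ ∀ x ∈ C, ¬ near 6 x 0 ∧
        (∃ N, Cont R {p | p ∈ path (EZ T v W)} x N) ∧ faZ T v r W x) := by
    intro W
    by_cases hW : W ∈ VP P k T L v N n
    swap
    · exact ⟨∅, fun h => absurd h hW⟩
    rw [mem_VP, mem_VQ] at hW
    obtain ⟨⟨hW1, hW2, hW3⟩, -⟩ := hW
    have hlen : (EZ T v W).length = n + D := by
      rw [(hbas T L B v hv W).2.2.1, hW1, (hW2.map _).sum_eq]
    obtain ⟨C, hC1, hC2⟩ := hn1 (EZ T v W) hW3.ext hlen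
    refine ⟨C.filter (fun x => faZ T v r W x), fun _ => ⟨?_, ?_⟩⟩
    · have hbad : (C.filter (fun x => ¬ faZ T v r W x)).card ≤ M0 := by
        have hsub : C.filter (fun x => ¬ faZ T v r W x) ⊆
            (bps T v W).toFinset.biUnion (fun q => box r q) := by
          intro x hx
          rw [mem_filter] at hx
          obtain ⟨-, hx⟩ := hx
          unfold faZ at hx
          push Not at hx
          obtain ⟨A, B', i, d, f, hAB, hx⟩ := hx
          rw [mem_biUnion]
          refine ⟨pos (EZ T v B'), ?_, mem_box.2 hx⟩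
          rw [List.mem_toFinset, hAB]
          exact mem_bps T v A B' i d f
        refine (card_le_card hsub).trans ?_
        refine (card_biUnion_le_card_mul _ _ ((2 * r + 1) ^ 3) (fun q _ => (card_box r q).le)).trans
          ?_
        rw [hM0]
        apply Nat.mul_le_mul_right
        refine (List.toFinset_card_le _).trans ?_
        rw [bps_length, hW2.length_eq, List.length_range]
      have hsum := card_filter_add_card_filter_not (s := C) (fun x => faZ T v r W x)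
      have hn3 : (n : ℝ) ^ (2 / 3 : ℝ) ≤ ((n + D : ℕ) : ℝ) ^ (2 / 3 : ℝ) := by
        apply Real.rpow_le_rpow (by positivity) _ (by norm_num)
        exact_mod_cast Nat.le_add_right _ _
      have hn4 : c * (n : ℝ) ^ (2 / 3 : ℝ) ≤ C.card :=
        (mul_le_mul_of_nonneg_left hn3 hc.le).trans hC1
      have hb' : ((C.filter (fun x => ¬ faZ T v r W x)).card : ℝ) ≤ M0 := by
        exact_mod_cast hbad
      have hs' : ((C.filter (fun x => faZ T v r W x)).card : ℝ) +
          ((C.filter (fun x => ¬ faZ T v r W x)).card : ℝ) = C.card := by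
        exact_mod_cast hsum
      linarith
    · intro x hx
      rw [mem_filter] at hx
      exact ⟨(hC2 x hx.1).1, (hC2 x hx.1).2, hx.2⟩
  choose C hC using hC
  have key := countP (k := k) T L v hP N n C (by
    intro W hW x hx
    obtain ⟨-, h3⟩ := hC W hW
    obtain ⟨h4, ⟨N', h5⟩, h6⟩ := h3 x hx
    exact con T L B R v hv hLL W (mem_VQ.1 (mem_VP.1 hW).1).2.2 x N' h5 h4 h6 N)
  have hlow : c / 2 * (n : ℝ) ^ (2 / 3 : ℝ) * (VP P k T L v N n).card ≤
      ((∑ W ∈ VP P k T L v N n, (C W).card : ℕ) : ℝ) := by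
    push_cast
    rw [mul_comm, ← nsmul_eq_mul]
    exact Finset.card_nsmul_le_sum _ _ _ (fun W hW => (hC W hW).1)
  have key' : ((∑ W ∈ VP P k T L v N n, (C W).card : ℕ) : ℝ) ≤
      (VP P k T L v (N + 1) n).card * Q := by
    exact_mod_cast key
  have hfin := hlow.trans key'
  rw [div_mul_eq_mul_div, div_mul_eq_mul_div, div_le_iff₀ (by positivity)]
  calc c * (n : ℝ) ^ (2 / 3 : ℝ) * (VP P k T L v N n).card
      = 2 * (c / 2 * (n : ℝ) ^ (2 / 3 : ℝ) * (VP P k T L v N n).card) := by ring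
    _ ≤ 2 * ((VP P k T L v (N + 1) n).card * Q) := by linarith
    _ = (VP P k T L v (N + 1) n).card * (2 * Q) := by ring

/-- many blocks -/
theorem powP {P : ℕ → List Sz → Prop} {k : List V} {T L : ℕ} {c δ : ℝ} (hc : 0 < c) {n : ℕ}
    {v : ℕ → List Dir} (h : ∀ N : ℕ, (N : ℝ) ≤ δ * (n : ℝ) ^ (2 / 3 : ℝ) →
      c * (n : ℝ) ^ (2 / 3 : ℝ) * (VP P k T L v N n).card ≤ (VP P k T L v (N + 1) n).card) (N : ℕ)
    (hN : (N : ℝ) ≤ δ * (n : ℝ) ^ (2 / 3 : ℝ)) :
    (c * (n : ℝ) ^ (2 / 3 : ℝ)) ^ N * (VP P k T L v 0 n).card ≤ (VP P k T L v N n).card := by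
  induction N with
  | zero => simp
  | succ N ih =>
    have h1 : (N : ℝ) ≤ δ * (n : ℝ) ^ (2 / 3 : ℝ) := by
      push_cast at hN
      linarith
    have h2 := ih h1
    have h3 : 0 ≤ c * (n : ℝ) ^ (2 / 3 : ℝ) := by positivity
    calc (c * (n : ℝ) ^ (2 / 3 : ℝ)) ^ (N + 1) * (VP P k T L v 0 n).card
        = c * (n : ℝ) ^ (2 / 3 : ℝ) *
          ((c * (n : ℝ) ^ (2 / 3 : ℝ)) ^ N * (VP P k T L v 0 n).card) := by ring
      _ ≤ c * (n : ℝ) ^ (2 / 3 : ℝ) * (VP P k T L v N n).card := mul_le_mul_of_nonneg_left h2 h3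
      _ ≤ _ := h N h1

/-- representatives of the oriented knot types -/
def sst : Setoid (List V) := ⟨Same, ⟨Same.refl, fun h => h.symm, fun h h' => h.trans h'⟩⟩

/-- the representative of the type of `w` -/
def rep (w : List Dir) : List V := (Quotient.mk sst (vl w)).out

theorem rep_same (w : List Dir) : Same (vl w) (rep w) := by
  have h : Quotient.mk sst (rep w) = Quotient.mk sst (vl w) := Quotient.out_eq _
  exact (show Same (rep w) (vl w) from Quotient.exact h).symm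

theorem rep_eq {w w' : List Dir} (h : Same (rep w) (rep w')) : rep w = rep w' := by
  have h1 : Quotient.mk sst (vl w) = Quotient.mk sst (vl w') :=
    Quotient.sound (show Same (vl w) (vl w') from
      (rep_same w).trans (h.trans (rep_same w').symm))
  unfold rep
  rw [h1]

/-- the words over all types of polygons in `G` -/
def ZP (P : ℕ → List Sz → Prop) (G : Finset (List Dir)) (T L : ℕ) (v : ℕ → List Dir) (N n : ℕ) :
    Finset (List Sz) := (G.image rep).biUnion (fun k => VP P k T L v N n)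

theorem mem_ZP {P : ℕ → List Sz → Prop} {G : Finset (List Dir)} {T L : ℕ} {v : ℕ → List Dir}
    {N n : ℕ} {W : List Sz} :
    W ∈ ZP P G T L v N n ↔ ∃ w ∈ G, W ∈ VP P (rep w) T L v N n := by
  unfold ZP
  rw [mem_biUnion]
  constructor
  · rintro ⟨k, hk, hW⟩
    obtain ⟨w, hw, rfl⟩ := mem_image.1 hk
    exact ⟨w, hw, hW⟩
  · rintro ⟨w, hw, hW⟩
    exact ⟨_, mem_image_of_mem _ hw, hW⟩

theorem card_ZP (P : ℕ → List Sz → Prop) (G : Finset (List Dir)) (T L : ℕ) (v : ℕ → List Dir)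
    (N n : ℕ) : (ZP P G T L v N n).card = ∑ k ∈ G.image rep, (VP P k T L v N n).card := by
  unfold ZP
  refine Finset.card_biUnion ?_
  intro k hk k' hk' hne
  rw [Function.onFun, Finset.disjoint_left]
  intro W hW hW'
  apply hne
  obtain ⟨w, -, rfl⟩ := mem_image.1 hk
  obtain ⟨w', -, rfl⟩ := mem_image.1 hk'
  have h1 := (mem_VQ.1 (mem_VP.1 hW).1).2.2.u
  have h2 := (mem_VQ.1 (mem_VP.1 hW').1).2.2.u
  exact rep_eq (h1.symm.trans h2)

open K3YZERO in
/-- no blocks -/
theorem zeroP {P : ℕ → List Sz → Prop} {G : Finset (List Dir)} (T L : ℕ) (v : ℕ → List Dir)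
    (n : ℕ) (hG : ∀ w ∈ G, SAP w ∧ w.length = n ∧ P 0 (w.map Sz.lt)) :
    G.card ≤ (ZP P G T L v 0 n).card := by
  refine Finset.card_le_card_of_injOn (fun w => w.map Sz.lt) ?_ ?_
  · intro w hw
    obtain ⟨h1, h2, h3⟩ := hG w hw
    refine mem_ZP.2 ⟨w, hw, mem_VP.2 ⟨mem_VQ.2 ⟨by rw [List.length_map, h2], by
      rw [lab_map]; rfl, ?_⟩, h3⟩⟩
    refine ⟨?_, ?_, ?_, ?_⟩
    · rw [BZ_map]; exact rep_same w
    · rw [BZ_map]; exact h1
    · rw [EZ_map]; exact h1
    · intro A B i d f h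
      exfalso
      have h4 : lab (w.map Sz.lt) = [] := lab_map w
      simp only at h
      rw [h] at h4
      unfold lab at h4
      rw [List.filterMap_eq_nil_iff] at h4
      have := h4 (.bl i d f) (by simp)
      simp at this
  · intro w1 _ w2 _ h
    simp only at h
    have h1 := congrArg BZ h
    rwa [BZ_map, BZ_map] at h1

/-- many blocks, over all types of polygons in `G` -/
theorem zpow {P : ℕ → List Sz → Prop} {G : Finset (List Dir)} {T L : ℕ} {c δ : ℝ} (hc : 0 < c)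
    {n : ℕ} {v : ℕ → List Dir} (h : ∀ (k : List V) (N : ℕ), (N : ℝ) ≤ δ * (n : ℝ) ^ (2 / 3 : ℝ) →
      c * (n : ℝ) ^ (2 / 3 : ℝ) * (VP P k T L v N n).card ≤ (VP P k T L v (N + 1) n).card) (N : ℕ)
    (hN : (N : ℝ) ≤ δ * (n : ℝ) ^ (2 / 3 : ℝ))
    (hG : ∀ w ∈ G, SAP w ∧ w.length = n ∧ P 0 (w.map Sz.lt)) :
    (c * (n : ℝ) ^ (2 / 3 : ℝ)) ^ N * G.card ≤ (ZP P G T L v N n).card := by
  have h0 : (G.card : ℝ) ≤ (ZP P G T L v 0 n).card := by exact_mod_cast zeroP T L v n hG
  have h1 : (c * (n : ℝ) ^ (2 / 3 : ℝ)) ^ N * ((ZP P G T L v 0 n).card : ℝ) ≤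
      ((ZP P G T L v N n).card : ℝ) := by
    rw [card_ZP, card_ZP]
    push_cast
    rw [Finset.mul_sum]
    exact Finset.sum_le_sum fun k _ => powP hc (fun N hN => h k N hN) N hN
  exact (mul_le_mul_of_nonneg_left h0 (by positivity)).trans h1

end

end PTK
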