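import Pool.Agent.L5helper76.PT.Mul

/-!
# All but a small fraction of the polygons of a class contain many blocks
-/

set_option autoImplicit false

namespace PTK

open Finset Filter Topology KN KNB KNM
open scoped Classical

noncomputable section

/-- the conclusion for the numbers -/
theorem num1 {c B : ℝ} (C : ℕ) (hc : 0 < c) (hB : 1 ≤ B) : ∃ c1 : ℝ, 0 < c1 ∧ c1 ≤ c ∧
    ∀ (x A g : ℝ) (N : ℕ), 0 < x → 0 ≤ A → (N : ℝ) ≤ c1 * x →
      (c * x) ^ N * g ≤ ((C * (N + N) : ℕ) : ℝ) ^ N * (B ^ N * A) → g ≤ Real.exp (-N) * A := by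
  have hB0 : 0 < B := by linarith
  obtain ⟨c1, hc1⟩ : ∃ c1 : ℝ, c1 = min c (c / (6 * (C + 1) * B)) := ⟨_, rfl⟩
  have h1 : 0 < c1 := by rw [hc1]; exact lt_min hc (by positivity)
  have h2 : c1 ≤ c := by rw [hc1]; exact min_le_left _ _
  have h3 : c1 ≤ c / (6 * (C + 1) * B) := by rw [hc1]; exact min_le_right _ _
  refine ⟨c1, h1, h2, ?_⟩
  intro x A g N hx hA hN h
  rw [le_div_iff₀ (by positivity)] at h3
  have h4 : ((C * (N + N) : ℕ) : ℝ) * B ≤ c * x / 3 := by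
    push_cast
    have h5 : (C : ℝ) * B * N ≤ (C + 1) * B * (c1 * x) := by
      apply mul_le_mul _ hN (Nat.cast_nonneg _) (by positivity)
      exact mul_le_mul_of_nonneg_right (by linarith) hB0.le
    have h6 : (C + 1 : ℝ) * B * (c1 * x) * 6 ≤ c * x := by
      have := mul_le_mul_of_nonneg_right h3 hx.le
      calc (C + 1 : ℝ) * B * (c1 * x) * 6 = c1 * (6 * (C + 1) * B) * x := by ring
        _ ≤ c * x := this
    linarith
  have h7 : (((C * (N + N) : ℕ) : ℝ) * B) ^ N ≤ (c * x / 3) ^ N :=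
    pow_le_pow_left₀ (by positivity) h4 N
  have h8 : (c * x) ^ N * g ≤ (c * x) ^ N * ((1 / 3) ^ N * A) := by
    calc (c * x) ^ N * g ≤ ((C * (N + N) : ℕ) : ℝ) ^ N * (B ^ N * A) := h
      _ = (((C * (N + N) : ℕ) : ℝ) * B) ^ N * A := by rw [mul_pow]; ring
      _ ≤ (c * x / 3) ^ N * A := mul_le_mul_of_nonneg_right h7 hA
      _ = (c * x) ^ N * ((1 / 3) ^ N * A) := by
          rw [div_eq_mul_one_div (c * x) 3, mul_pow]; ring
  have h9 : g ≤ (1 / 3) ^ N * A := le_of_mul_le_mul_left h8 (by positivity)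
  refine h9.trans (mul_le_mul_of_nonneg_right ?_ hA)
  have h10 : Real.exp (-(N : ℝ)) = (Real.exp (-1)) ^ N := by
    rw [← Real.exp_nat_mul]
    congr 1
    ring
  rw [h10]
  apply pow_le_pow_left₀ (by norm_num)
  rw [Real.exp_neg, one_div]
  apply inv_anti₀ (Real.exp_pos _)
  have := Real.exp_one_lt_d9
  linarith

/-- bounded growth of the counts over short distances, at the good lengths -/
def Shift (Q : List Dir → Prop) (good : ℕ → Prop) : Prop :=
  ∀ β : ℕ, β % 2 = 0 → ∀ D : ℝ, ∃ B : ℝ, 1 ≤ B ∧ ∀ᶠ j : ℕ in atTop, good j →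
    ∀ N : ℕ, (N : ℝ) ≤ D * (2 * j : ℝ) ^ (2 / 3 : ℝ) →
      (a Q (2 * j + β * N) : ℝ) ≤ B ^ N * a Q (2 * j)

/-- many blocks -/
theorem typ_main {Q : List Dir → Prop} {good : ℕ → Prop} {L : ℕ} {x : List Dir} (hx : SmR L x)
    (hinc : ∀ (w u : List Dir) (N : ℕ), SAP w → Q w → SAP u →
      SumQ (vl w) (fun _ => vl (.zm :: x)) N (vl u) → Q u) (hsh : Shift Q good) :
    ∃ c : ℝ, 0 < c ∧ ∀ᶠ j : ℕ in atTop, good j →
      (((K Q (2 * j)).filter (fun w => (oc (RS (blk (2 * L + 4) x)) w : ℝ) <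
        c * (2 * j : ℝ) ^ (2 / 3 : ℝ))).card : ℝ) ≤
        Real.exp (-(c * (2 * j : ℝ) ^ (2 / 3 : ℝ))) * a Q (2 * j) := by
  obtain ⟨T, c, C, β, n0, rfl, hc, hβ, H⟩ := mainA L x hx
  obtain ⟨B, hB, hsh⟩ := hsh β hβ c
  obtain ⟨c1, hc1, hc1c, hnum⟩ := num1 C hc hB
  refine ⟨c1 / 2, by positivity, ?_⟩
  have ht : Tendsto (fun j : ℕ => c1 * (2 * j : ℝ) ^ (2 / 3 : ℝ)) atTop atTop := by
    apply Tendsto.const_mul_atTop hc1
    refine (tendsto_rpow_atTop (by norm_num)).comp ?_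
    exact Tendsto.const_mul_atTop (by norm_num) tendsto_natCast_atTop_atTop
  filter_upwards [ht.eventually_ge_atTop 2, eventually_ge_atTop (n0 + 1), hsh] with j h1 h2 h3 hg
  obtain ⟨y, hy⟩ : ∃ y : ℝ, y = (2 * j : ℝ) ^ (2 / 3 : ℝ) := ⟨_, rfl⟩
  have hy' : ((2 * j : ℕ) : ℝ) ^ (2 / 3 : ℝ) = y := by rw [hy]; push_cast; rfl
  rw [← hy] at h1 ⊢
  have hy0 : 0 < y := by
    rw [hy]
    have : (0 : ℝ) < 2 * j := by
      have : (0 : ℝ) < j := by exact_mod_cast (show 0 < j by omega)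
      linarith
    positivity
  obtain ⟨N, hN⟩ : ∃ N, N = ⌊c1 * y⌋₊ := ⟨_, rfl⟩
  have hN1 : (N : ℝ) ≤ c1 * y := by rw [hN]; exact Nat.floor_le (by positivity)
  have hN2 : c1 * y < N + 1 := by rw [hN]; exact Nat.lt_floor_add_one _
  have hN3 : c1 / 2 * y ≤ N := by linarith
  set G := (K Q (2 * j)).filter (fun w => oc (RS (blk (2 * L + 4) x)) w < N) with hG
  have hsub : (K Q (2 * j)).filter (fun w => (oc (RS (blk (2 * L + 4) x)) w : ℝ) < c1 / 2 * y) ⊆
      G := by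
    intro w hw
    rw [mem_filter] at hw
    rw [hG, mem_filter]
    refine ⟨hw.1, ?_⟩
    have := hw.2.trans_le hN3
    exact_mod_cast this
  have hNc : (N : ℝ) ≤ c * y := hN1.trans (mul_le_mul_of_nonneg_right hc1c hy0.le)
  have h4 := H (2 * j) (by omega) N N G (by rw [hy']; exact hNc) (by
    intro w hw
    rw [hG, mem_filter, mem_K] at hw
    exact ⟨hw.1.2.1, hw.1.1, hw.2⟩)
  rw [hy'] at h4
  have h5 : a (fun u => ∃ w ∈ G, SumQ (vl w) (fun _ => vl (.zm :: x)) N (vl u))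
      (2 * j + β * N) ≤ a Q (2 * j + β * N) := by
    unfold a
    apply Finset.card_le_card
    intro u hu
    obtain ⟨h6, h7, w, hw, h8⟩ := mem_K.1 hu
    rw [hG, mem_filter, mem_K] at hw
    exact mem_K.2 ⟨h6, h7, hinc w u N hw.1.2.1 hw.1.2.2 h7 h8⟩
  have h6 : (a (fun u => ∃ w ∈ G, SumQ (vl w) (fun _ => vl (.zm :: x)) N (vl u))
      (2 * j + β * N) : ℝ) ≤ B ^ N * a Q (2 * j) := by
    have h7 : (a (fun u => ∃ w ∈ G, SumQ (vl w) (fun _ => vl (.zm :: x)) N (vl u))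
      (2 * j + β * N) : ℝ) ≤ a Q (2 * j + β * N) := by exact_mod_cast h5
    exact h7.trans (h3 hg N (by rw [← hy]; exact hNc))
  have h7 := hnum y (a Q (2 * j)) G.card N hy0 (Nat.cast_nonneg _) hN1
    (h4.trans (mul_le_mul_of_nonneg_left h6 (by positivity)))
  have h8 : (((K Q (2 * j)).filter (fun w => (oc (RS (blk (2 * L + 4) x)) w : ℝ) <
      c1 / 2 * y)).card : ℝ) ≤ G.card := by exact_mod_cast card_le_card hsub
  refine h8.trans (h7.trans (mul_le_mul_of_nonneg_right (Real.exp_le_exp.2 ?_) (Nat.cast_nonneg _)))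
  linarith

/-- classes closed under connected sums -/
theorem shift_csum {Q : List Dir → Prop} (hQ : KClass Q) (hne : ∃ w, SAP w ∧ Q w) (hc : CSum Q) :
    Shift Q (fun _ => True) := by
  intro β hβ D
  obtain ⟨B, hB, i0, h0⟩ := ratio_Q Q hQ hne hc
  refine ⟨B ^ β, one_le_pow₀ hB, ?_⟩
  filter_upwards [eventually_ge_atTop i0] with j hj _ N _
  have h9 := K2SHIFT.pow_bound (fun i => (a Q (2 * i) : ℝ)) B (by linarith) i0 h0 (β * N / 2) j hj
  have h2 : β * N % 2 = 0 := by rw [Nat.mul_mod, hβ]; simp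
  have e1 : 2 * (j + β * N / 2) = 2 * j + β * N := by omega
  rw [e1] at h9
  refine h9.trans (mul_le_mul_of_nonneg_right ?_ (Nat.cast_nonneg _))
  rw [← pow_mul]
  exact pow_le_pow_right₀ hB (by omega)

theorem inc_csum {Q : List Dir → Prop} (hQ : KClass Q) (hc : CSum Q) {x : List Dir}
    (hx : SAP (.zm :: x)) (hQx : Q (.zm :: x)) : ∀ (w u : List Dir) (N : ℕ), SAP w → Q w →
      SAP u → SumQ (vl w) (fun _ => vl (.zm :: x)) N (vl u) → Q u :=
  fun _ u N hw hQw hu h => sums_mem hQ hc hw hQw (Same.refl _) hx hQx (Same.refl _) N (vl u) h u hu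
    (Same.refl _)

/-- a sum with unknots has the same type -/
theorem sumQ_unknot {k : List V} {x : List Dir} (hx : U (.zm :: x)) : ∀ (N : ℕ) (l : List V),
    SumQ k (fun _ => vl (.zm :: x)) N l → Same l k
  | 0, _, hl => hl
  | N + 1, _, ⟨l1, v, l2, hF, h2, h3, h4⟩ => by
    have h5 := sumQ_unknot hx N _ h2
    exact h4.trans ((c_glue1 l1 v l2 hF (h3.trans (GEN.u_same hx))).trans h5)

theorem inc_unknot {Q : List Dir → Prop} (hQ : KClass Q) {x : List Dir}
    (hx : U (.zm :: x)) : ∀ (w u : List Dir) (N : ℕ), SAP w → Q w →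
      SAP u → SumQ (vl w) (fun _ => vl (.zm :: x)) N (vl u) → Q u :=
  fun w u N hw hQw hu h => hQ.same w u hw hu (sumQ_unknot hx N _ h).symm hQw

/-- any class of knot types, at the lengths where the count is close to its growth rate -/
theorem shift_good {Q : List Dir → Prop} (hQ : KClass Q) (hne : ∃ w, SAP w ∧ Q w) :
    ∃ δ : ℝ, 0 < δ ∧ δ < 1 ∧ Shift Q (fun j => ((1 - δ) * gr Q) ^ (2 * j) ≤ pq Q (2 * j)) := by
  obtain ⟨hg1, -, -⟩ := gr_bounds Q hQ hne
  have hg : 1 < gr Q := by linarith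
  have hg2 : 1 < gr Q ^ 2 := by nlinarith
  obtain ⟨ε, hε⟩ : ∃ ε : ℝ, ε = gr Q ^ 2 - 1 := ⟨_, rfl⟩
  have hε0 : 0 < ε := by linarith
  obtain ⟨δ1, hδ0, hδ1, H⟩ := class_ratio Q hQ hne ε hε0
  obtain ⟨j0, H⟩ := eventually_atTop.1 H
  refine ⟨δ1 / 2, by linarith, by linarith, ?_⟩
  intro β hβ D
  obtain ⟨B, hB⟩ : ∃ B : ℝ, B = gr Q ^ 2 + ε := ⟨_, rfl⟩
  have hB1 : 1 ≤ B := by linarith
  -- the bound is for `pq`; the factor `n` is absorbed below
  refine ⟨(2 * B) ^ (β + 1), one_le_pow₀ (by linarith), ?_⟩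
  obtain ⟨ρ, hρ⟩ : ∃ ρ : ℝ, ρ = (1 - δ1 / 2) / (1 - δ1) := ⟨_, rfl⟩
  have hρ1 : 1 < ρ := by
    rw [hρ, one_lt_div (by linarith)]
    linarith
  have hlρ : 0 < Real.log ρ := Real.log_pos hρ1
  have hlg : 0 < Real.log (gr Q) := Real.log_pos hg
  -- `β D (2 j) ^ (2 / 3) log g ≤ j log ρ` for large `j`
  have hev : ∀ᶠ j : ℕ in atTop, (β : ℝ) * (|D| * (2 * j : ℝ) ^ (2 / 3 : ℝ)) * Real.log (gr Q) ≤
      2 * j * Real.log ρ ∧ (β : ℝ) * (|D| * (2 * j : ℝ) ^ (2 / 3 : ℝ)) ≤ 2 * j := by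
    have h1 : Tendsto (fun x : ℝ => x ^ (-(1 / 3 : ℝ))) atTop (𝓝 0) :=
      tendsto_rpow_neg_atTop (by norm_num)
    have h2 : Tendsto (fun j : ℕ => (2 * j : ℝ)) atTop atTop :=
      Tendsto.const_mul_atTop (by norm_num) tendsto_natCast_atTop_atTop
    have h3 := (h1.comp h2).const_mul ((β : ℝ) * |D| * Real.log (gr Q))
    have h4 := (h1.comp h2).const_mul ((β : ℝ) * |D|)
    rw [mul_zero] at h3 h4
    filter_upwards [h3.eventually (gt_mem_nhds hlρ), h4.eventually (gt_mem_nhds one_pos),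
      eventually_gt_atTop 0] with j h3 h4 hj
    have hj' : (0 : ℝ) < 2 * j := by
      have : (0 : ℝ) < j := by exact_mod_cast hj
      linarith
    simp only [Function.comp] at h3 h4
    have e : (2 * j : ℝ) ^ (2 / 3 : ℝ) = (2 * j) * (2 * j : ℝ) ^ (-(1 / 3 : ℝ)) := by
      nth_rewrite 2 [← Real.rpow_one (2 * j : ℝ)]
      rw [← Real.rpow_add hj']
      norm_num
    rw [e]
    constructor
    · nlinarith
    · nlinarith
  filter_upwards [hev, eventually_ge_atTop (j0 + 1)] with j hj hj0 hgood N hN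
  have hx0 : 0 ≤ (2 * j : ℝ) ^ (2 / 3 : ℝ) := by positivity
  have hND : (N : ℝ) ≤ |D| * (2 * j : ℝ) ^ (2 / 3 : ℝ) :=
    hN.trans (mul_le_mul_of_nonneg_right (le_abs_self D) hx0)
  have hβN : (β : ℝ) * N ≤ β * (|D| * (2 * j : ℝ) ^ (2 / 3 : ℝ)) :=
    mul_le_mul_of_nonneg_left hND (Nat.cast_nonneg _)
  have h2 : β * N % 2 = 0 := by rw [Nat.mul_mod, hβ]; simp
  obtain ⟨r, hr⟩ : ∃ r, β * N = 2 * r := ⟨β * N / 2, by omega⟩
  have hr' : (β : ℝ) * N = 2 * r := by exact_mod_cast hr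
  have hpos : ∀ n, 0 ≤ pq Q n := fun n => by unfold pq; positivity
  have key : ∀ i ≤ r, pq Q (2 * j) ≤ pq Q (2 * (j + i)) ∧
      pq Q (2 * (j + i)) ≤ B ^ i * pq Q (2 * j) := by
    intro i
    induction i with
    | zero => intro _; simp
    | succ i ih =>
      intro hi
      obtain ⟨i1, i2⟩ := ih (by omega)
      have hi' : (i : ℝ) ≤ r := by exact_mod_cast (show i ≤ r by omega)
      have h3 : ((1 - δ1) * gr Q) ^ (2 * (j + i)) ≤ ((1 - δ1 / 2) * gr Q) ^ (2 * j) := by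
        have h4 : (gr Q) ^ (2 * i) ≤ ρ ^ (2 * j) := by
          rw [← Real.log_le_log_iff (by positivity) (by positivity), Real.log_pow, Real.log_pow]
          push_cast
          have h5 : (2 * i : ℝ) * Real.log (gr Q) ≤ β * N * Real.log (gr Q) := by
            rw [hr']
            exact mul_le_mul_of_nonneg_right (by linarith) hlg.le
          have h6 := mul_le_mul_of_nonneg_right hβN hlg.le
          linarith [hj.1]
        have h5 : (1 - δ1) ^ (2 * i) ≤ 1 := pow_le_one₀ (by linarith) (by linarith)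
        have h6 : 0 < (1 - δ1) := by linarith
        calc ((1 - δ1) * gr Q) ^ (2 * (j + i))
            = ((1 - δ1) * gr Q) ^ (2 * j) * ((1 - δ1) ^ (2 * i) * gr Q ^ (2 * i)) := by
              rw [mul_add, pow_add, mul_pow (1 - δ1) (gr Q) (2 * i)]
          _ ≤ ((1 - δ1) * gr Q) ^ (2 * j) * (1 * ρ ^ (2 * j)) := by
              apply mul_le_mul_of_nonneg_left _ (by positivity)
              exact mul_le_mul h5 h4 (by positivity) (by norm_num)
          _ = ((1 - δ1 / 2) * gr Q) ^ (2 * j) := by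
              rw [one_mul, ← mul_pow, hρ]
              congr 1
              field_simp
      have h7 := H (j + i) (by omega) ((h3.trans hgood).trans i1)
      have hp : 0 < pq Q (2 * (j + i)) := by
        have : 0 < ((1 - δ1 / 2) * gr Q) ^ (2 * j) := by
          have : 0 < 1 - δ1 / 2 := by linarith
          positivity
        linarith
      rw [abs_le] at h7
      have e : 2 * (j + i) + 2 = 2 * (j + (i + 1)) := by ring
      rw [e] at h7
      have h8 : 1 ≤ pq Q (2 * (j + (i + 1))) / pq Q (2 * (j + i)) := by linarith [h7.1]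
      have h9 : pq Q (2 * (j + (i + 1))) / pq Q (2 * (j + i)) ≤ B := by linarith [h7.2]
      rw [le_div_iff₀ hp, one_mul] at h8
      rw [div_le_iff₀ hp] at h9
      refine ⟨i1.trans h8, h9.trans ?_⟩
      calc B * pq Q (2 * (j + i)) ≤ B * (B ^ i * pq Q (2 * j)) :=
            mul_le_mul_of_nonneg_left i2 (by linarith)
        _ = B ^ (i + 1) * pq Q (2 * j) := by ring
  obtain ⟨-, k2⟩ := key r le_rfl
  rw [hr]
  have e2 : 2 * j + 2 * r = 2 * (j + r) := by ring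
  rw [e2]
  rcases Nat.eq_zero_or_pos N with hN0 | hN0
  · subst hN0
    have : r = 0 := by omega
    subst this
    simp
  unfold pq at k2
  have hj1 : (0 : ℝ) < j := by exact_mod_cast (show 0 < j by omega)
  have hrj : (r : ℝ) ≤ j := by linarith [hj.2]
  have hBr : B ^ r ≤ B ^ (β * N) := pow_le_pow_right₀ hB1 (by omega)
  have ha : (0 : ℝ) ≤ a Q (2 * j) := Nat.cast_nonneg _
  have k3 : (a Q (2 * (j + r)) : ℝ) ≤ B ^ r * a Q (2 * j) * 2 := by
    have hjr : (0 : ℝ) < 2 * ((2 * (j + r) : ℕ) : ℝ) := by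
      push_cast
      have : (0 : ℝ) ≤ r := Nat.cast_nonneg _
      linarith
    rw [div_le_iff₀ hjr] at k2
    refine k2.trans ?_
    push_cast
    have e3 : B ^ r * ((a Q (2 * j) : ℝ) / (2 * (2 * j))) * (2 * (2 * (j + r))) =
        B ^ r * a Q (2 * j) * ((j + r) / j) := by
      field_simp
    rw [e3]
    apply mul_le_mul_of_nonneg_left _ (by positivity)
    rw [div_le_iff₀ hj1]
    linarith
  refine k3.trans ?_
  have e4 : B ^ r * (a Q (2 * j) : ℝ) * 2 = (2 * B ^ r) * a Q (2 * j) := by ring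
  rw [e4]
  apply mul_le_mul_of_nonneg_right _ ha
  rw [← pow_mul]
  calc 2 * B ^ r ≤ 2 ^ ((β + 1) * N) * B ^ ((β + 1) * N) := by
        apply mul_le_mul _ _ (by positivity) (by positivity)
        · calc (2 : ℝ) = 2 ^ 1 := (pow_one _).symm
            _ ≤ 2 ^ ((β + 1) * N) := pow_le_pow_right₀ (by norm_num) (by nlinarith)
        · exact hBr.trans (pow_le_pow_right₀ hB1 (by nlinarith))
    _ = (2 * B) ^ ((β + 1) * N) := (mul_pow _ _ _).symm

end

end PTK
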