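import Pool.Agent.L5helper76.PT.Fin

/-!
# Polygons in a half space that contain given words
-/

set_option autoImplicit false

namespace PTK

open Finset Filter Topology KN KNB KNM
open scoped Classical

noncomputable section

/-- `.zm :: v` is a polygon in the half space to the right of its edge `.zm` -/
def HS (v : List Dir) : Prop := SAP (.zm :: v) ∧ ∀ p ∈ path v, 0 ≤ p.1

theorem vec_one {d : Dir} (h : ax d ≠ 0) : (vec d).1 = 0 := QR.vec_fst_of_ax h

/-- cyclic shift by one letter -/
theorem shift1 {Q : List Dir → Prop} (hQ : KClass Q) {e : Dir} {w : List Dir}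
    (hw : SAP (e :: w)) (hQw : Q (e :: w)) : SAP (w ++ [e]) ∧ Q (w ++ [e]) := by
  refine ⟨QL.SAP_swap (l1 := [e]) (l2 := w) hw, ?_⟩
  have h := (GEN.rot_of Q hQ (e :: w) hw 1).1 hQw
  rwa [List.rotate_cons_succ, List.rotate_zero] at h

/-- cyclic shift -/
theorem shiftn {Q : List Dir → Prop} (hQ : KClass Q) {A B : List Dir}
    (hw : SAP (A ++ B)) (hQw : Q (A ++ B)) : SAP (B ++ A) ∧ Q (B ++ A) := by
  refine ⟨QL.SAP_swap hw, ?_⟩
  have h := (GEN.rot_of Q hQ (A ++ B) hw A.length).1 hQw
  rwa [List.rotate_append_length_eq] at h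

/-- two bumps at an edge in the left extreme plane give a polygon with an extreme edge `neg d` -/
theorem two_bumps {Q : List Dir → Prop} (hQ : KClass Q) {e d : Dir} {v : List Dir}
    (hw : SAP (e :: v)) (hQw : Q (e :: v)) (he : ax e ≠ 0) (hd : ax d ≠ 0) (hed : perp d e)
    (hx : ∀ p ∈ path v, 0 ≤ p.1) :
    SAP (neg d :: ([e, d, .xm] ++ v ++ [.xp])) ∧ Q (neg d :: ([e, d, .xm] ++ v ++ [.xp])) ∧
      ∀ p ∈ path ([e, d, .xm] ++ v ++ [.xp]), 0 ≤ p.1 := by
  have hpos : pos v + vec e = 0 := hw.2.1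
  have hv1 : (pos v).1 = 0 := by
    have h := congrArg Prod.fst hpos
    simp only [Prod.fst_add, vec_one he, Prod.fst_zero] at h
    linarith
  have hed0 : (vec d) ≠ vec e := fun h => by
    have := vec_inj h
    subst this
    exact hed rfl
  have hd0 : vec d ≠ 0 := by cases d <;> decide
  have hxp : perp .xm e := fun h => he h.symm
  have he1 : (vec e).1 = 0 := vec_one he
  have hd1 : (vec d).1 = 0 := vec_one hd
  have hxm1 : (vec .xm).1 = -1 := rfl
  -- first bump
  have hs1 : site (e :: v) 0 .xm := by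
    refine ⟨by simp, hxp, ?_, ?_⟩
    · intro h
      simp only [List.drop_succ_cons, List.drop_zero] at h
      rw [path, List.mem_cons] at h
      rcases h with h | h
      · rw [hpos] at h
        have := congrArg Prod.fst h
        simp only [Prod.fst_add, hv1, hxm1, Prod.fst_zero] at this
        omega
      · have := hx _ h
        simp only [Prod.fst_add, hv1, hxm1] at this
        omega
    · intro h
      simp only [List.drop_succ_cons, List.drop_zero, List.getD_cons_zero] at h
      rw [path, List.mem_cons] at h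
      rcases h with h | h
      · rw [hpos] at h
        have := congrArg Prod.fst h
        simp only [Prod.fst_add, hv1, hxm1, he1, Prod.fst_zero] at this
        omega
      · have := hx _ h
        simp only [Prod.fst_add, hv1, hxm1, he1] at this
        omega
  have i1 : ins (e :: v) 0 .xm = .xp :: e :: .xm :: v := rfl
  have w1 := (S_ins_proof _ _ _ hw hs1).1
  have q1 := (GEN.inv_of Q hQ _ hw _ _ hs1).1 hQw
  rw [i1] at w1 q1
  -- second bump
  have hpath : ∀ p : Z3, p ∈ path (.xp :: e :: .xm :: v) → p.1 < 0 →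
      p = pos v + vec .xm ∨ p = vec .xm := by
    intro p hp hp1
    rw [path, path, path, List.mem_cons, List.mem_cons, List.mem_cons] at hp
    rcases hp with hp | hp | hp | hp
    · exfalso
      have : p = 0 := by
        rw [hp]
        change pos v + vec .xm + vec e + vec .xp = 0
        have e1 : vec .xm + vec .xp = 0 := by decide
        calc pos v + vec .xm + vec e + vec .xp = (pos v + vec e) + (vec .xm + vec .xp) := by abel
          _ = 0 := by rw [hpos, e1, add_zero]
      rw [this] at hp1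
      exact absurd hp1 (lt_irrefl _)
    · right
      rw [hp]
      change pos v + vec .xm + vec e = _
      calc pos v + vec .xm + vec e = (pos v + vec e) + vec .xm := by abel
        _ = vec .xm := by rw [hpos, zero_add]
    · left
      exact hp
    · exfalso
      have := hx _ hp
      omega
  have hs2 : site (.xp :: e :: .xm :: v) 1 d := by
    refine ⟨by simp, hed, ?_, ?_⟩
    · intro h
      simp only [List.drop_succ_cons, List.drop_zero] at h
      change pos v + vec .xm + vec d ∈ _ at h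
      have h1 : (pos v + vec .xm + vec d).1 < 0 := by
        simp only [Prod.fst_add, hv1, hxm1, hd1]
        omega
      rcases hpath _ h h1 with h2 | h2
      · have : vec d = 0 := by
          have h3 := congrArg (fun z => z - (pos v + vec .xm)) h2
          simpa using h3
        exact hd0 this
      · have h3 : pos v + vec d = 0 := by
          have h3 := congrArg (fun z => z - vec .xm) h2
          simp only [sub_self] at h3
          calc pos v + vec d = pos v + vec .xm + vec d - vec .xm := by abel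
            _ = 0 := h3
        apply hed0
        have h4 := h3.trans hpos.symm
        exact add_left_cancel h4
    · intro h
      simp only [List.drop_succ_cons, List.drop_zero, List.getD_cons_succ,
        List.getD_cons_zero] at h
      change pos v + vec .xm + vec d + vec e ∈ _ at h
      have e0 : pos v + vec .xm + vec d + vec e = vec .xm + vec d := by
        calc pos v + vec .xm + vec d + vec e = (pos v + vec e) + vec .xm + vec d := by abel
          _ = _ := by rw [hpos, zero_add]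
      rw [e0] at h
      have h1 : (vec .xm + vec d).1 < 0 := by
        simp only [Prod.fst_add, hxm1, hd1]
        omega
      rcases hpath _ h h1 with h2 | h2
      · have h3 : vec d = pos v := by
          have h3 := congrArg (fun z => z - vec .xm) h2
          simpa using h3
        have h4 : vec d + vec e = 0 := by rw [h3]; exact hpos
        have h5 : vec (neg d) = vec e := by
          rw [vec_neg]
          exact neg_eq_of_add_eq_zero_right h4
        have h6 := vec_inj h5
        apply hed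
        rw [← h6]
        cases d <;> rfl
      · apply hd0
        have h3 := congrArg (fun z => z - vec .xm) h2
        simpa using h3
  have i2 : ins (.xp :: e :: .xm :: v) 1 d = .xp :: (neg d :: ([e, d, .xm] ++ v)) := rfl
  have w2 := (S_ins_proof _ _ _ w1 hs2).1
  have q2 := (GEN.inv_of Q hQ _ w1 _ _ hs2).1 q1
  rw [i2] at w2 q2
  obtain ⟨w3, q3⟩ := shift1 hQ w2 q2
  refine ⟨w3, q3, ?_⟩
  intro p hp
  rw [QL.mem_path_append] at hp
  rcases hp with hp | ⟨q, hq, rfl⟩
  · simp only [path, pos, List.mem_cons, List.not_mem_nil, or_false] at hp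
    rcases hp with rfl | rfl
    · decide
    · exact le_refl _
  · have hq1 : -1 ≤ q.1 := by
      rw [QL.mem_path_append] at hq
      rcases hq with hq | ⟨q', hq', rfl⟩
      · have := hx _ hq
        omega
      · have h1 : -1 ≤ q'.1 := by
          simp only [path, pos, List.mem_cons, List.not_mem_nil, or_false] at hq'
          rcases hq' with rfl | rfl | rfl | rfl <;>
            simp only [Prod.fst_add, hxm1, hd1, he1, Prod.fst_zero] <;> omega
        have h2 : (q' + pos v).1 = q'.1 := by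
          simp only [Prod.fst_add, hv1]
          omega
        omega
    have h3 : (q + pos [Dir.xp]).1 = q.1 + 1 := rfl
    omega

/-- an extreme edge can be replaced by an extreme edge `.zm` -/
theorem en {Q : List Dir → Prop} (hQ : KClass Q) {e : Dir} {v : List Dir} (hw : SAP (e :: v))
    (hQw : Q (e :: v)) (he : ax e ≠ 0) (hx : ∀ p ∈ path v, 0 ≤ p.1) :
    ∃ v', HS v' ∧ Q (.zm :: v') ∧ v <:+: v' := by
  have hy : ∀ (e : Dir) (v : List Dir), SAP (e :: v) → Q (e :: v) → ax e = 1 →
      (∀ p ∈ path v, 0 ≤ p.1) → ∃ v', HS v' ∧ Q (.zm :: v') ∧ v <:+: v' := by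
    intro e v hw hQw he hx
    have h1 : perp .zp e := by
      unfold perp
      rw [he]
      decide
    obtain ⟨h2, h3, h4⟩ := two_bumps hQ (d := .zp) hw hQw (by rw [he]; decide) (by decide) h1 hx
    have h2' : SAP (Dir.zm :: ([e, .zp, .xm] ++ v ++ [.xp])) := h2
    have h3' : Q (Dir.zm :: ([e, .zp, .xm] ++ v ++ [.xp])) := h3
    exact ⟨[e, .zp, .xm] ++ v ++ [.xp], ⟨h2', h4⟩, h3', ⟨[e, .zp, .xm], [.xp], rfl⟩⟩
  cases e with
  | xp => exact absurd rfl he
  | xm => exact absurd rfl he
  | yp => exact hy .yp v hw hQw rfl hx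
  | ym => exact hy .ym v hw hQw rfl hx
  | zm => exact ⟨v, ⟨hw, hx⟩, hQw, List.infix_refl v⟩
  | zp =>
    obtain ⟨h2, h3, h4⟩ := two_bumps hQ (d := .yp) hw hQw he (by decide) (by decide) hx
    obtain ⟨v', h5, h6, h7⟩ := hy .ym _ h2 h3 rfl h4
    exact ⟨v', h5, h6, (List.IsInfix.trans ⟨[.zp, .yp, .xm], [.xp], rfl⟩ h7)⟩

/-- every polygon can be cut at an edge in its left extreme plane -/
theorem cut {Q : List Dir → Prop} (hQ : KClass Q) {A B : List Dir} {e : Dir}
    (hw : SAP (A ++ e :: B)) (hQw : Q (A ++ e :: B)) (he : ax e ≠ 0)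
    (hx : ∀ p ∈ path (A ++ e :: B), (pos B).1 ≤ p.1) :
    ∃ v', HS v' ∧ Q (.zm :: v') ∧ (B ++ A) <:+: v' := by
  obtain ⟨h1, h2⟩ := shiftn hQ hw hQw
  rw [List.cons_append] at h1 h2
  have h0 : pos A + (pos B + vec e) = 0 := by
    have := hw.2.1
    rwa [pos_append] at this
  have hve : (vec e).1 = 0 := vec_one he
  refine en hQ h1 h2 he ?_
  intro p hp
  rw [QL.mem_path_append] at hp
  rcases hp with hp | ⟨q, hq, rfl⟩
  · have h3 : p + pos (e :: B) ∈ path (A ++ e :: B) :=
      QL.mem_path_append.2 (Or.inr ⟨p, hp, rfl⟩)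
    have h4 := hx _ h3
    have h5 : (p + pos (e :: B)).1 = p.1 + ((pos B).1 + (vec e).1) := rfl
    rw [h5, hve] at h4
    omega
  · have h3 : q ∈ path (A ++ e :: B) := by
      refine QL.mem_path_append.2 (Or.inl ?_)
      rw [path]
      exact List.mem_cons_of_mem _ hq
    have h4 := hx _ h3
    have h5 := congrArg Prod.fst h0
    have h6 : (pos A + (pos B + vec e)).1 = (pos A).1 + ((pos B).1 + (vec e).1) := rfl
    rw [h6, hve] at h5
    have h7 : (q + pos A).1 = q.1 + (pos A).1 := rfl
    rw [h7]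
    change (pos A).1 + ((pos B).1 + 0) = 0 at h5
    omega

theorem oc_infix (S : List Dir → Prop) {u w : List Dir} (h : u <:+: w) : oc S u ≤ oc S w := by
  obtain ⟨s, t, rfl⟩ := h
  have h1 := oc_append_ge S (s ++ u) t
  have h2 := oc_append_ge S s u
  omega

/-- the same with the number of occurrences -/
theorem cut_oc {Q : List Dir → Prop} (hQ : KClass Q) {w : List Dir} (hw : SAP w) (hQw : Q w) :
    ∃ v', HS v' ∧ Q (.zm :: v') ∧ ∀ (S : List Dir → Prop) (ℓ : ℕ), (∀ b, S b → b.length ≤ ℓ) →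
      oc S w ≤ oc S v' + (2 * ℓ + 1) := by
  obtain ⟨i, h1, h2, h3⟩ := QR.exists_P (-1) (Or.inr rfl) w hw
  have hsp : w = w.take i ++ w.getD i .xp :: w.drop (i + 1) := by
    rw [← drop_eq_getD_cons w i h1, List.take_append_drop]
  obtain ⟨e, he⟩ : ∃ e, e = w.getD i .xp := ⟨_, rfl⟩
  obtain ⟨A, hA⟩ : ∃ A, A = w.take i := ⟨_, rfl⟩
  obtain ⟨B, hB⟩ : ∃ B, B = w.drop (i + 1) := ⟨_, rfl⟩
  rw [← he, ← hA, ← hB] at hsp
  rw [← he] at h2
  rw [← hB] at h3
  rw [hsp] at hw hQw h3
  obtain ⟨v', h4, h5, h6⟩ := cut hQ hw hQw h2 (fun p hp => by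
    have := h3 p hp
    linarith)
  refine ⟨v', h4, h5, ?_⟩
  intro S ℓ hS
  have h7 := oc_infix S h6
  have h8 := oc_append_ge S B A
  have h9 := oc_append_le hS A (e :: B)
  have h10 := oc_append_le hS [e] B
  have h11 := oc_le_length S [e]
  rw [hsp]
  rw [List.singleton_append] at h10
  rw [List.length_singleton] at h11
  omega

/-- rotated patterns -/
theorem oc_map (S : List Dir → Prop) (w : List Dir) (φ : Dir → Dir) :
    oc S w ≤ oc (fun b => ∃ b', S b' ∧ b = b'.map φ) (w.map φ) := by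
  apply card_le_card
  intro i hi
  obtain ⟨h1, b, hb, h2⟩ := mem_pl.1 hi
  refine mem_pl.2 ⟨by rw [List.length_map]; exact h1, b.map φ, ⟨b, hb, rfl⟩, ?_⟩
  rw [← List.map_drop]
  exact h2.map φ

theorem oc_map1 (π w : List Dir) (φ : Dir → Dir) :
    oc (fun b => b = π) w ≤ oc (fun b => b = π.map φ) (w.map φ) := by
  refine (oc_map _ w φ).trans (card_le_card ?_)
  intro i hi
  obtain ⟨h1, b, ⟨b', hb', hb⟩, h2⟩ := mem_pl.1 hi
  subst hb'
  exact mem_pl.2 ⟨h1, b, hb, h2⟩

/-- half-space polygons with many copies of the words of the list `F` -/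
def Have (Q : List Dir → Prop) (F : List (List Dir)) : Prop :=
  ∀ K : ℕ, ∃ v, HS v ∧ Q (.zm :: v) ∧ ∀ π ∈ F, K ≤ oc (fun b => b = π) v

theorem have_rot {Q : List Dir → Prop} (hQ : KClass Q) {F : List (List Dir)} (hF : Have Q F)
    {d f : Dir} (hdf : perp d f) : Have Q (F.map (fun π => π.map (rt d f))) := by
  intro K
  obtain ⟨ℓ, hℓ⟩ : ∃ ℓ : ℕ, ∀ π ∈ F, π.length ≤ ℓ :=
    ⟨(F.map List.length).sum, fun π hπ => List.single_le_sum (fun _ _ => Nat.zero_le _) _
      (List.mem_map_of_mem hπ)⟩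
  obtain ⟨v, ⟨hv1, hv2⟩, hQv, hv⟩ := hF (K + (2 * ℓ + 2))
  obtain ⟨h1, h2⟩ := T_rt_proof d f hdf _ hv1
  have h3 : Q ((Dir.zm :: v).map (rt d f)) := hQ.same _ _ hv1 h1 h2 hQv
  obtain ⟨v', h4, h5, h6⟩ := cut_oc hQ h1 h3
  refine ⟨v', h4, h5, ?_⟩
  intro π' hπ'
  obtain ⟨π, hπ, rfl⟩ := List.mem_map.1 hπ'
  have h7 := h6 (fun b => b = π.map (rt d f)) ℓ (by
    rintro b rfl
    rw [List.length_map]
    exact hℓ π hπ)
  have h8 := oc_map1 π (Dir.zm :: v) (rt d f)
  have h9 := hv π hπ
  have h10 := oc_infix (fun b => b = π) (List.suffix_cons Dir.zm v).isInfix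
  omega

theorem have_two {Q : List Dir → Prop} (hQ : KClass Q) (hc : CSum Q) {F F' : List (List Dir)}
    (hF : Have Q F) (hF' : Have Q F') : Have Q (F ++ F') := by
  have hrot : perp .xm .zm := by decide
  have hF1 := have_rot hQ hF hrot
  intro K
  obtain ⟨ℓ, hℓ⟩ : ∃ ℓ : ℕ, ∀ π ∈ F ++ F', π.length ≤ ℓ :=
    ⟨((F ++ F').map List.length).sum, fun π hπ => List.single_le_sum (fun _ _ => Nat.zero_le _) _
      (List.mem_map_of_mem hπ)⟩
  obtain ⟨v, ⟨hv1, hv2⟩, hQv, hv⟩ := hF1 (K + (2 * ℓ + 2))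
  obtain ⟨v', ⟨hv1', hv2'⟩, hQv', hv'⟩ := hF' (K + (2 * ℓ + 2))
  obtain ⟨h1, h2⟩ := T_rt_proof _ _ hrot _ hv1
  have h3 : Q ((Dir.zm :: v).map (rt .xm .zm)) := hQ.same _ _ hv1 h1 h2 hQv
  obtain ⟨l2, hl2⟩ : ∃ l2, l2 = v.map (rt .xm .zm) := ⟨_, rfl⟩
  have e1 : (Dir.zm :: v).map (rt .xm .zm) = [] ++ .zp :: l2 := by
    rw [hl2, List.nil_append, List.map_cons]
    rfl
  have hR : ∀ p : Z3, (Rp .xm .zm p).1 = -p.1 := by
    intro p
    simp [Rp, vec, cr]
  have hpath := (T_rtc_proof _ _ hrot).2.2.1 (Dir.zm :: v)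
  have hposl : (pos l2).1 = 0 := by
    have h4 := ((T_rtc_proof _ _ hrot).2.2.1 v).1
    rw [← hl2] at h4
    rw [h4, hR]
    have h5 : pos v + vec .zm = 0 := hv1.2.1
    have h6 := congrArg Prod.fst h5
    have h7 : (pos v + vec .zm).1 = (pos v).1 + 0 := rfl
    rw [h7] at h6
    change (pos v).1 + 0 = 0 at h6
    omega
  have hFac : Facing [] v' l2 := by
    refine ⟨by rw [← e1]; exact h1, ?_, hv1', hv2'⟩
    intro p hp
    rw [← e1, hpath.2, List.mem_map] at hp
    obtain ⟨q, hq, rfl⟩ := hp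
    rw [hposl, hR]
    have hq0 : 0 ≤ q.1 := by
      rw [path, List.mem_cons] at hq
      rcases hq with hq | hq
      · have h5 : pos v + vec .zm = 0 := hv1.2.1
        rw [hq, h5]
        exact le_refl _
      · exact hv2 q hq
    omega
  have h4 : Q (join [] v' l2) := hc [] v' l2 hFac (by rw [← e1]; exact h3) hQv'
  have h5 : SAP (join [] v' l2) := S_glueSAP_proof [] v' l2 hFac
  obtain ⟨v3, h6, h7, h8⟩ := cut_oc hQ h5 h4
  refine ⟨v3, h6, h7, ?_⟩
  intro π hπ
  have h9 := h8 (fun b => b = π) ℓ (by rintro b rfl; exact hℓ _ hπ)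
  have j1 : v' <:+: join [] v' l2 := ⟨[.xm], .xp :: l2, by simp [KN.join]⟩
  have j2 : l2 <:+: join [] v' l2 := ⟨.xm :: (v' ++ [.xp]), [], by simp [KN.join]⟩
  rcases List.mem_append.1 hπ with hπ' | hπ'
  · have h10 := oc_infix (fun b => b = π) j2
    have h11 := hv (π.map (rt .xm .zm)) (List.mem_map_of_mem hπ')
    have h12 := oc_map1 (π.map (rt .xm .zm)) v (rt .xm .zm)
    have e2 : (π.map (rt .xm .zm)).map (rt .xm .zm) = π := by
      rw [List.map_map]
      have : (rt .xm .zm) ∘ (rt .xm .zm) = id := by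
        funext e
        cases e <;> rfl
      rw [this, List.map_id]
    rw [e2, ← hl2] at h12
    omega
  · have h10 := oc_infix (fun b => b = π) j1
    have h11 := hv' π hπ'
    omega

theorem have_list {Q : List Dir → Prop} (hQ : KClass Q) (hc : CSum Q) {π : List Dir}
    (hF : Have Q [π]) : ∀ l : List (Dir × Dir), (∀ q ∈ l, perp q.1 q.2) →
    Have Q (l.map (fun q => π.map (rt q.1 q.2)))
  | [], _ => fun K => by
    obtain ⟨v, h1, h2, -⟩ := hF K
    exact ⟨v, h1, h2, by simp⟩
  | q :: l, h => by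
    have h1 := have_list hQ hc hF l (fun q' hq' => h q' (List.mem_cons_of_mem _ hq'))
    have h2 := have_rot hQ hF (h q (by simp))
    exact have_two hQ hc h2 h1

/-- all rotations of a word in one polygon -/
theorem have_all {Q : List Dir → Prop} (hQ : KClass Q) (hc : CSum Q) {π : List Dir}
    (hF : Have Q [π]) : ∃ v, HS v ∧ Q (.zm :: v) ∧ ∀ d f : Dir, perp d f →
      π.map (rt d f) <:+: v := by
  obtain ⟨l, hl⟩ : ∃ l, l = ((univ : Finset (Dir × Dir)).toList.filter
      (fun q => perp q.1 q.2)) := ⟨_, rfl⟩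
  obtain ⟨v, h1, h2, h3⟩ := have_list hQ hc hF l (by
    intro q hq
    rw [hl, List.mem_filter] at hq
    simpa using hq.2) 1
  refine ⟨v, h1, h2, ?_⟩
  intro d f hdf
  have h4 := h3 (π.map (rt d f)) (by
    rw [List.mem_map]
    refine ⟨(d, f), ?_, rfl⟩
    rw [hl, List.mem_filter]
    simp [hdf])
  unfold oc at h4
  obtain ⟨i, hi⟩ := Finset.card_pos.1 (Nat.lt_of_lt_of_le Nat.zero_lt_one h4)
  obtain ⟨-, b, rfl, h5⟩ := mem_pl.1 hi
  exact h5.isInfix.trans (List.drop_suffix i v).isInfix

end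

end PTK
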