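import Pool.Agent.H246K3.All3

/-!
# Occurrences of words in words
-/

set_option autoImplicit false

namespace PTK

open Finset KN
open scoped Classical

noncomputable section

/-- the places in `w` where a word of the set `S` starts -/
def pl (S : List Dir → Prop) (w : List Dir) : Finset ℕ :=
  (range w.length).filter (fun i => ∃ b, S b ∧ b <+: w.drop i)

/-- the number of these places -/
def oc (S : List Dir → Prop) (w : List Dir) : ℕ := (pl S w).card

theorem mem_pl {S : List Dir → Prop} {w : List Dir} {i : ℕ} :
    i ∈ pl S w ↔ i < w.length ∧ ∃ b, S b ∧ b <+: w.drop i := by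
  unfold pl
  rw [mem_filter, mem_range]

theorem oc_le_length (S : List Dir → Prop) (w : List Dir) : oc S w ≤ w.length := by
  unfold oc pl
  refine (card_filter_le _ _).trans ?_
  rw [card_range]

theorem oc_append_ge (S : List Dir → Prop) (X Y : List Dir) :
    oc S X + oc S Y ≤ oc S (X ++ Y) := by
  unfold oc
  have hinj : Function.Injective (fun j : ℕ => X.length + j) := fun a b h => by
    simp only at h
    omega
  have hd : Disjoint (pl S X) ((pl S Y).image (fun j => X.length + j)) := by
    rw [Finset.disjoint_left]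
    intro i hi hj
    obtain ⟨h1, -⟩ := mem_pl.1 hi
    obtain ⟨j, -, rfl⟩ := mem_image.1 hj
    omega
  rw [← card_image_of_injective (pl S Y) hinj, ← card_union_of_disjoint hd]
  apply card_le_card
  intro i hi
  rcases mem_union.1 hi with hi | hi
  · obtain ⟨h1, b, hb, h2⟩ := mem_pl.1 hi
    refine mem_pl.2 ⟨by rw [List.length_append]; omega, b, hb, ?_⟩
    rw [List.drop_append_of_le_length h1.le]
    exact h2.trans (List.prefix_append _ _)
  · obtain ⟨j, hj, rfl⟩ := mem_image.1 hi
    obtain ⟨h1, b, hb, h2⟩ := mem_pl.1 hj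
    refine mem_pl.2 ⟨by rw [List.length_append]; omega, b, hb, ?_⟩
    rw [List.drop_append, List.drop_eq_nil_of_le (by omega), List.nil_append]
    have e : X.length + j - X.length = j := by omega
    rw [e]
    exact h2

theorem oc_append_le {S : List Dir → Prop} {ℓ : ℕ} (hS : ∀ b, S b → b.length ≤ ℓ)
    (X Y : List Dir) : oc S (X ++ Y) ≤ oc S X + ℓ + oc S Y := by
  have hsub : pl S (X ++ Y) ⊆ (pl S X ∪ Finset.Ico (X.length - ℓ) X.length) ∪
      (pl S Y).image (fun j => X.length + j) := by
    intro i hi
    obtain ⟨h1, b, hb, h2⟩ := mem_pl.1 hi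
    have hbl := hS b hb
    rw [List.length_append] at h1
    rcases Nat.lt_or_ge i X.length with h3 | h3
    · apply mem_union_left
      rcases Nat.lt_or_ge i (X.length - ℓ) with h4 | h4
      · apply mem_union_left
        refine mem_pl.2 ⟨h3, b, hb, ?_⟩
        rw [List.drop_append_of_le_length h3.le] at h2
        refine List.prefix_of_prefix_length_le h2 (List.prefix_append _ _) ?_
        rw [List.length_drop]
        omega
      · apply mem_union_right
        rw [Finset.mem_Ico]
        exact ⟨h4, h3⟩
    · apply mem_union_right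
      rw [mem_image]
      refine ⟨i - X.length, mem_pl.2 ⟨by omega, b, hb, ?_⟩, by omega⟩
      rw [List.drop_append, List.drop_eq_nil_of_le h3, List.nil_append] at h2
      exact h2
  unfold oc
  refine (card_le_card hsub).trans ((card_union_le _ _).trans ?_)
  have h1 := card_union_le (pl S X) (Finset.Ico (X.length - ℓ) X.length)
  have h2 : (Finset.Ico (X.length - ℓ) X.length).card ≤ ℓ := by
    rw [Nat.card_Ico]; omega
  have h3 := card_image_le (s := pl S Y) (f := fun j => X.length + j)
  omega

/-- the effect of a modification on the number of occurrences -/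
theorem oc_mod {S : List Dir → Prop} {ℓ : ℕ} (hS : ∀ b, S b → b.length ≤ ℓ)
    (X s t Y : List Dir) : oc S (X ++ t ++ Y) ≤ oc S (X ++ s ++ Y) + (t.length + 2 * ℓ) := by
  have h1 := oc_append_le hS (X ++ t) Y
  have h2 := oc_append_le hS X t
  have h3 := oc_le_length S t
  have h4 := oc_append_ge S (X ++ s) Y
  have h5 := oc_append_ge S X s
  omega

/-- rotations -/
theorem oc_rot {S : List Dir → Prop}
    (hS : ∀ b, S b → ∀ d f, perp d f → S (b.map (rt d f))) (w : List Dir) {d f : Dir}
    (hdf : perp d f) : oc S (w.map (rt d f)) ≤ oc S w := by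
  obtain ⟨⟨d', f', hp', -, -, hinv, -, -, -⟩, -, -, -⟩ := T_rtc_proof d f hdf
  apply card_le_card
  intro i hi
  obtain ⟨h1, b, hb, h2⟩ := mem_pl.1 hi
  rw [List.length_map] at h1
  refine mem_pl.2 ⟨h1, b.map (rt d' f'), hS b hb d' f' hp', ?_⟩
  have h3 := h2.map (rt d' f')
  rw [← List.map_drop, List.map_map] at h3
  have e : (rt d' f') ∘ (rt d f) = id := by
    funext e
    exact hinv e
  rw [e, List.map_id] at h3
  exact h3

/-- occurrences of factors -/
theorem oc_factor {S S' : List Dir → Prop} {ℓ : ℕ} (hS : ∀ b, S b → b.length ≤ ℓ)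
    (h : ∀ b, S b → ∃ b', S' b' ∧ b'.length ≠ 0 ∧ b' <:+: b) (w : List Dir) :
    oc S w ≤ (ℓ + 1) * oc S' w := by
  have hsub : pl S w ⊆ (range (ℓ + 1) ×ˢ pl S' w).image (fun q => q.2 - q.1) := by
    intro i hi
    obtain ⟨h1, b, hb, h2⟩ := mem_pl.1 hi
    obtain ⟨b', hb', hb0, s, t, rfl⟩ := h b hb
    have h3 := hS _ hb
    simp only [List.length_append] at h3
    rw [mem_image]
    refine ⟨(s.length, i + s.length), ?_, by simp⟩
    rw [mem_product, mem_range]
    refine ⟨by simp only; omega, ?_⟩
    obtain ⟨z, hz⟩ := h2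
    have e : w.drop (i + s.length) = b' ++ (t ++ z) := by
      rw [← List.drop_drop, ← hz]
      simp
    refine mem_pl.2 ⟨?_, b', hb', by rw [e]; exact List.prefix_append _ _⟩
    have h4 := congrArg List.length e
    rw [List.length_drop, List.length_append] at h4
    simp only
    omega
  refine (card_le_card hsub).trans (card_image_le.trans ?_)
  rw [card_product, card_range]
  exact le_refl _

end

end PTK
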