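import Pool.Agent.L5helper76.PT.Cnt
import Pool.Agent.L5helper76.PT.Occ

/-!
# The multiplicity of the expansions, and the main inequality for occurrences of blocks
-/

set_option autoImplicit false

namespace PTK

open Finset Filter Topology KN KNB KNM
open scoped Classical

noncomputable section

open K3YMUL (EZ_nil EZ_cons EZ_append blk_pos blk_le)

/-- the number of places is the number of blocks -/
theorem Po_card_eq (T : ℕ) (v : ℕ → List Dir) : ∀ (W : List Sz) (o : ℕ),
    (Po T v o W).card = (lab W).length := by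
  intro W
  induction W with
  | nil => intro o; rfl
  | cons s W ih =>
    intro o
    cases s with
    | lt e =>
      rw [lab_lt]
      exact ih (o + 1)
    | bl i d f =>
      have hb := blk_pos T (v i)
      have hn : o ∉ Po T v (o + (blk T (v i)).length) W := by
        intro hX
        have := Po_ge T v W _ _ hX
        omega
      rw [lab_bl, List.length_cons]
      simp only [Po]
      rw [card_insert_of_notMem hn, ih]

/-- the number of words with the same expansion, all of whose blocks are at places in `J` -/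
theorem mulJ (T : ℕ) (v : ℕ → List Dir) (N : ℕ) (J : Finset ℕ) (Z : Finset (List Sz))
    (u : List Dir)
    (hZ : ∀ W ∈ Z, EZ T v W = u ∧ (lab W).Perm (List.range N) ∧ Po T v 0 W ⊆ J) :
    Z.card ≤ (36 * J.card) ^ N := by
  have hle : Z.card ≤
      ((J.powersetCard N) ×ˢ ((List.range N).permutations.toFinset ×ˢ dl N)).card := by
    refine Finset.card_le_card_of_injOn (fun W => (Po T v 0 W, lab W, di W)) ?_ ?_
    · intro W hW
      obtain ⟨-, hlab, hJ⟩ := hZ W hW
      rw [Finset.mem_coe, Finset.mem_product, Finset.mem_product]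
      refine ⟨?_, ?_, ?_⟩
      · rw [Finset.mem_powersetCard]
        refine ⟨hJ, ?_⟩
        simp only
        rw [Po_card_eq, hlab.length_eq, List.length_range]
      · rw [List.mem_toFinset, List.mem_permutations]
        exact hlab
      · refine mem_dl ?_
        rw [di_length, hlab.length_eq, List.length_range]
    · intro W hW W' hW' he
      simp only [Prod.mk.injEq] at he
      exact inj' T v W W' 0 (by rw [(hZ W hW).1, (hZ W' hW').1]) he.1 he.2.1 he.2.2
  refine hle.trans ?_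
  rw [Finset.card_product, Finset.card_product, Finset.card_powersetCard]
  calc J.card.choose N * (((List.range N).permutations.toFinset).card * (dl N).card)
      ≤ J.card.choose N * (N.factorial * 36 ^ N) :=
        Nat.mul_le_mul_left _ (Nat.mul_le_mul (perm_card N) (dl_card N))
    _ = 36 ^ N * J.card.descFactorial N := by
        rw [Nat.descFactorial_eq_factorial_mul_choose]
        ring
    _ ≤ 36 ^ N * J.card ^ N := Nat.mul_le_mul_left _ (Nat.descFactorial_le_pow _ _)
    _ = (36 * J.card) ^ N := (mul_pow _ _ _).symm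

/-- the rotated copies of the word `b` -/
def RS (b : List Dir) (u : List Dir) : Prop := ∃ d f : Dir, perp d f ∧ u = b.map (rt d f)

theorem rs_len (b : List Dir) : ∀ u, RS b u → u.length ≤ b.length := by
  rintro u ⟨d, f, -, rfl⟩
  rw [List.length_map]

/-- rotations can be composed -/
theorem rt_comp {d f d' f' : Dir} (h : perp d f) (h' : perp d' f') :
    perp (rt d' f' d) (rt d' f' f) ∧ ∀ e, rt d' f' (rt d f e) = rt (rt d' f' d) (rt d' f' f) e := by
  revert d f d' f'
  intro d f d' f'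
  cases d <;> cases f <;> cases d' <;> cases f' <;> intro h h' <;>
    first
    | exact absurd h (by decide)
    | exact absurd h' (by decide)
    | exact ⟨by decide, fun e => by cases e <;> rfl⟩

theorem rs_rot (b : List Dir) : ∀ u, RS b u → ∀ d f, perp d f → RS b (u.map (rt d f)) := by
  rintro u ⟨d, f, h, rfl⟩ d' f' h'
  obtain ⟨h1, h2⟩ := rt_comp h h'
  refine ⟨_, _, h1, ?_⟩
  rw [List.map_map]
  apply List.map_congr_left
  intro e _
  exact h2 e

theorem EZ_bl' (T : ℕ) (v : ℕ → List Dir) (A B : List Sz) (i : ℕ) (d f : Dir) :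
    EZ T v (A ++ .bl i d f :: B) = EZ T v A ++ (blk T (v i)).map (rt d f) ++ EZ T v B := by
  rw [EZ_append, EZ_cons, List.append_assoc]
  rfl

theorem EZ_lt' (T : ℕ) (v : ℕ → List Dir) (A B : List Sz) (f : Dir) :
    EZ T v (A ++ .lt f :: B) = EZ T v A ++ [f] ++ EZ T v B := by
  rw [EZ_append, EZ_cons, List.append_assoc]
  rfl

/-- the number of occurrences grows by a bounded amount with every insertion -/
def PO (T : ℕ) (x : List Dir) (r : ℕ) (N : ℕ) (W : List Sz) : Prop :=
  oc (RS (blk T x)) (EZ T (fun _ => x) W) < r + (3 * (blk T x).length + 1) * N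

theorem kp_PO (T L : ℕ) {B : ℕ} (x : List Dir) (hv : SmB L B (fun _ => x)) (r : ℕ) :
    Kp (PO T x r) T L (fun _ => x) := by
  intro k N n W hW d f A B hdf hR
  obtain ⟨hW1, hW2⟩ := mem_VP.1 hW
  obtain ⟨-, -, hV⟩ := mem_VQ.1 hW1
  have hperp : ∀ A B i d' f', W = A ++ .bl i d' f' :: B → perp d' f' := fun A B i d' f' h =>
    (hV.room A B i d' f' h).1
  have hEX := ((e_bas T L _ _ hv W).2.2.2.2 d f hdf hperp).1
  have h1 := oc_rot (rs_rot (blk T x)) (EZ T (fun _ => x) W) hdf
  rw [hEX] at h1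
  have hid : ∀ l : List Dir, l.map (rt .xp .zp) = l := fun l => by
    have e : rt .xp .zp = id := by
      funext e
      cases e <;> rfl
    rw [e, List.map_id]
  unfold PO at hW2 ⊢
  have hl := rs_len (blk T x)
  rw [EZ_bl', hid]
  rcases hR with h | ⟨M, rfl, h⟩ | ⟨M, rfl, h⟩
  · rw [h, EZ_lt'] at h1
    have h2 := oc_mod hl (EZ T (fun _ => x) A) [.zp] (blk T x) (EZ T (fun _ => x) B)
    rw [mul_add, mul_one]
    omega
  · have e1 : M ++ Sz.lt .zp :: Sz.lt .xm :: B = M ++ Sz.lt .zp :: ([] ++ Sz.lt .xm :: B) := rfl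
    have e2 : EZ T (fun _ => x) (M ++ Sz.lt .zp :: Sz.lt .xm :: B) =
        EZ T (fun _ => x) M ++ [.zp, .xm] ++ EZ T (fun _ => x) B := by
      rw [e1, EZ_lt', EZ_lt', EZ_nil]
      simp
    rw [h, e2] at h1
    have e3 : EZ T (fun _ => x) (M ++ [Sz.lt .xm]) = EZ T (fun _ => x) M ++ [.xm] := by
      rw [EZ_lt', EZ_nil, List.append_nil]
    rw [e3]
    have h2 := oc_mod hl (EZ T (fun _ => x) M) [.zp, .xm] ([.xm] ++ blk T x)
      (EZ T (fun _ => x) B)
    rw [List.length_append, List.length_singleton] at h2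
    have e4 : EZ T (fun _ => x) M ++ [.xm] ++ blk T x ++ EZ T (fun _ => x) B =
        EZ T (fun _ => x) M ++ ([.xm] ++ blk T x) ++ EZ T (fun _ => x) B := by simp
    rw [mul_add, mul_one, e4]
    omega
  · have e2 : EZ T (fun _ => x) (A ++ Sz.lt .xp :: Sz.lt .zp :: M) =
        EZ T (fun _ => x) A ++ [.xp, .zp] ++ EZ T (fun _ => x) M := by
      rw [show A ++ Sz.lt .xp :: Sz.lt .zp :: M = A ++ Sz.lt .xp :: ([] ++ Sz.lt .zp :: M) from rfl,
        EZ_lt', EZ_lt', EZ_nil]
      simp
    rw [h, e2] at h1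
    have e3 : EZ T (fun _ => x) (Sz.lt .xp :: M) = [.xp] ++ EZ T (fun _ => x) M := by
      rw [show Sz.lt .xp :: M = [] ++ Sz.lt .xp :: M from rfl, EZ_lt', EZ_nil, List.nil_append]
    rw [e3]
    have h2 := oc_mod hl (EZ T (fun _ => x) A) [.xp, .zp] (blk T x ++ [.xp])
      (EZ T (fun _ => x) M)
    rw [List.length_append, List.length_singleton] at h2
    have e4 : EZ T (fun _ => x) A ++ blk T x ++ ([.xp] ++ EZ T (fun _ => x) M) =
        EZ T (fun _ => x) A ++ (blk T x ++ [.xp]) ++ EZ T (fun _ => x) M := by simp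
    rw [mul_add, mul_one, e4]
    omega

/-- the places of the blocks of a word are occurrences in its expansion -/
theorem Po_sub {k : List V} {T L : ℕ} {x : List Dir} {W : List Sz}
    (hV : VaQ k T L (fun _ => x) W) :
    Po T (fun _ => x) 0 W ⊆ pl (RS (blk T x)) (EZ T (fun _ => x) W) := by
  intro p hp
  obtain ⟨A, B, i, d, f, h1, h2⟩ := Po_mem T _ W 0 p hp
  rw [zero_add] at h2
  have hdf := (hV.room A B i d f h1).1
  rw [h1, EZ_bl', h2]
  have hb := blk_pos T x
  refine mem_pl.2 ⟨?_, (blk T x).map (rt d f), ⟨d, f, hdf, rfl⟩, ?_⟩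
  · rw [List.length_append, List.length_append, List.length_map]
    omega
  · rw [List.append_assoc, List.drop_left]
    exact List.prefix_append _ _

/-- change of the base type -/
theorem sumQ_base {k k' : List V} (h : Same k k') {ks : ℕ → List V} : ∀ {N : ℕ} {l : List V},
    SumQ k ks N l → SumQ k' ks N l
  | 0, _, hl => Same.trans hl h
  | _ + 1, _, ⟨l1, v, l2, h1, h2, h3, h4⟩ => ⟨l1, v, l2, h1, sumQ_base h h2, h3, h4⟩

/-- the main inequality -/
theorem mainA (L : ℕ) (x : List Dir) (hx : SmR L x) :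
    ∃ (T : ℕ) (c : ℝ) (C β n0 : ℕ), T = 2 * L + 4 ∧ 0 < c ∧ β % 2 = 0 ∧
    ∀ n ≥ n0, ∀ (r N : ℕ) (G : Finset (List Dir)), (N : ℝ) ≤ c * (n : ℝ) ^ (2 / 3 : ℝ) →
      (∀ w ∈ G, SAP w ∧ w.length = n ∧ oc (RS (blk T x)) w < r) →
      (c * (n : ℝ) ^ (2 / 3 : ℝ)) ^ N * G.card ≤ ((C * (r + N) : ℕ) : ℝ) ^ N *
        a (fun u => ∃ w ∈ G, SumQ (vl w) (fun _ => vl (.zm :: x)) N (vl u)) (n + β * N) := by
  obtain ⟨R, hR, hLR⟩ := d_LL (2 * L + 4) L le_rfl
  set T := 2 * L + 4 with hT
  set B := (blk 0 x).length with hB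
  have hv : SmB L B (fun _ => x) := fun _ => ⟨hx, le_refl _⟩
  obtain ⟨c, δ, hc, hδ, n0, h0⟩ := cntP T L B R hLR hR
  obtain ⟨c', hc'd⟩ : ∃ c' : ℝ, c' = min δ c := ⟨_, rfl⟩
  have hc'0 : 0 < c' := by rw [hc'd]; exact lt_min hδ hc
  have hc'1 : c' ≤ δ := by rw [hc'd]; exact min_le_left _ _
  have hc'2 : c' ≤ c := by rw [hc'd]; exact min_le_right _ _
  set b := (blk T x).length with hb
  have hb0 : 0 < b := blk_pos T x
  refine ⟨T, c', 36 * (3 * b + 1), b - 1, n0, rfl, hc'0, ?_, ?_⟩
  · have hlen : (blk T x).length = 2 * (T + 1) + x.length := by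
      unfold blk
      simp only [List.length_append, List.length_replicate]
      omega
    have hodd : (x.length + 1) % 2 = 0 := by
      have h2 := even_of_closed (hx.1.2.1)
      simpa using h2
    omega
  intro n hn r N G hN hG
  have hx0 : 0 ≤ (n : ℝ) ^ (2 / 3 : ℝ) := by positivity
  have hN' : (N : ℝ) ≤ δ * (n : ℝ) ^ (2 / 3 : ℝ) :=
    hN.trans (mul_le_mul_of_nonneg_right hc'1 hx0)
  have hG' : ∀ w ∈ G, SAP w ∧ w.length = n ∧ PO T x r 0 (w.map Sz.lt) := by
    intro w hw
    obtain ⟨h1, h2, h3⟩ := hG w hw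
    refine ⟨h1, h2, ?_⟩
    unfold PO
    rw [K3YZERO.EZ_map]
    omega
  have h1 := zpow (P := PO T x r) hc (fun k N hN => h0 n hn k _ _ hv (kp_PO T L x hv r) N hN) N
    hN' hG'
  set Z := ZP (PO T x r) G T L (fun _ => x) N n with hZ
  have h2 : Z.card ≤ (36 * (r + (3 * b + 1) * N)) ^ N * (Z.image (EZ T (fun _ => x))).card := by
    apply Finset.card_le_mul_card_image
    intro u _
    rcases (Z.filter (fun W => EZ T (fun _ => x) W = u)).eq_empty_or_nonempty with he | ⟨W0, hW0⟩
    · rw [he]; simp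
    · rw [mem_filter, hZ, mem_ZP] at hW0
      obtain ⟨⟨w0, hw0, hW0⟩, hu⟩ := hW0
      have h3 := (mem_VP.1 hW0).2
      unfold PO at h3
      rw [hu] at h3
      refine (mulJ T (fun _ => x) N (pl (RS (blk T x)) u) _ u ?_).trans ?_
      · intro W hW
        rw [mem_filter, hZ, mem_ZP] at hW
        obtain ⟨⟨w, hw, hW⟩, hu'⟩ := hW
        obtain ⟨-, hlab, hV⟩ := mem_VQ.1 (mem_VP.1 hW).1
        refine ⟨hu', hlab, ?_⟩
        rw [← hu']
        exact Po_sub hV
      · apply Nat.pow_le_pow_left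
        unfold oc at h3
        exact Nat.mul_le_mul_left _ h3.le
  have h3 : (Z.image (EZ T (fun _ => x))).card ≤
      a (fun u => ∃ w ∈ G, SumQ (vl w) (fun _ => vl (.zm :: x)) N (vl u)) (n + (b - 1) * N) := by
    unfold a
    apply Finset.card_le_card
    intro u hu
    obtain ⟨W, hW, rfl⟩ := mem_image.1 hu
    rw [hZ, mem_ZP] at hW
    obtain ⟨w, hw, hW⟩ := hW
    obtain ⟨hW1, hlab, hV⟩ := mem_VQ.1 (mem_VP.1 hW).1
    refine mem_K.2 ⟨?_, hV.ext, w, hw, ?_⟩
    · rw [(e_bas T L B _ hv W).2.2.1, hW1]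
      congr 1
      rw [(hlab.map _).sum_eq]
      simp only [List.map_const', List.length_range, List.sum_replicate, smul_eq_mul]
      rw [← hb, mul_comm]
    · exact sumQ_base (rep_same w).symm
        (typ hv N (ks := fun _ => vl (.zm :: x)) (fun i _ => Same.refl _) W hlab hV)
  have h4 : (c' * (n : ℝ) ^ (2 / 3 : ℝ)) ^ N * G.card ≤
      (c * (n : ℝ) ^ (2 / 3 : ℝ)) ^ N * G.card := by
    apply mul_le_mul_of_nonneg_right _ (Nat.cast_nonneg _)
    exact pow_le_pow_left₀ (by positivity) (mul_le_mul_of_nonneg_right hc'2 hx0) N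
  have h5 : Z.card ≤ (36 * (3 * b + 1) * (r + N)) ^ N *
      a (fun u => ∃ w ∈ G, SumQ (vl w) (fun _ => vl (.zm :: x)) N (vl u)) (n + (b - 1) * N) := by
    refine h2.trans (Nat.mul_le_mul (Nat.pow_le_pow_left ?_ N) h3)
    nlinarith
  have h6 : (Z.card : ℝ) ≤ ((36 * (3 * b + 1) * (r + N) : ℕ) : ℝ) ^ N *
      a (fun u => ∃ w ∈ G, SumQ (vl w) (fun _ => vl (.zm :: x)) N (vl u)) (n + (b - 1) * N) := by
    exact_mod_cast h5
  exact h4.trans (h1.trans h6)

end

end PTK
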