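import Pool.Agent.L5helper76.PT.Geo

/-!
# The pattern theorem
-/

set_option autoImplicit false

namespace PTK

open Finset Filter Topology KN KNB KNM
open scoped Classical

noncomputable section

/-- a half-space polygon is small for a suitable size -/
theorem smR_of {v : List Dir} (h : HS v) : SmR v.length v := by
  refine ⟨h.1, fun p hp => ?_⟩
  obtain ⟨h1, h2, h3⟩ := K2VEX.path_bd v p hp
  rw [abs_le] at h1 h3
  refine ⟨h.2 p hp, h1.2, h2, h3.1, by linarith⟩

theorem blk_infix (T : ℕ) (v : List Dir) : v <:+: blk T v :=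
  ⟨List.replicate (T + 1) .xm, List.replicate (T + 1) .xp, rfl⟩

/-- the inverse of a rotation -/
theorem inv_rt {d f : Dir} (h : perp d f) : ∃ d' f' : Dir, perp d' f' ∧
    ∀ u : List Dir, (u.map (rt d f)).map (rt d' f') = u ∧ (u.map (rt d' f')).map (rt d f) = u := by
  obtain ⟨⟨d', f', hp', -, -, h1, h2, -, -⟩, -, -, -⟩ := T_rtc_proof d f h
  refine ⟨d', f', hp', fun u => ⟨?_, ?_⟩⟩
  · rw [List.map_map]
    have e : (rt d' f') ∘ (rt d f) = id := funext h1
    rw [e, List.map_id]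
  · rw [List.map_map]
    have e : (rt d f) ∘ (rt d' f') = id := funext h2
    rw [e, List.map_id]

/-- pigeonhole over the rotations -/
theorem rs_pigeon (b w : List Dir) : ∃ d f : Dir, perp d f ∧
    oc (RS b) w ≤ 36 * oc (fun u => u = b.map (rt d f)) w := by
  by_contra hcon
  push Not at hcon
  have h0 : perp .xp .zp := by decide
  have hsub : pl (RS b) w ⊆ ((univ : Finset (Dir × Dir)).filter (fun q => perp q.1 q.2)).biUnion
      (fun q => pl (fun u => u = b.map (rt q.1 q.2)) w) := by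
    intro i hi
    obtain ⟨h1, u, ⟨d, f, hdf, hu⟩, h2⟩ := mem_pl.1 hi
    rw [mem_biUnion]
    exact ⟨(d, f), by simp [hdf], mem_pl.2 ⟨h1, u, hu, h2⟩⟩
  have h1 : oc (RS b) w ≤ ∑ q ∈ (univ : Finset (Dir × Dir)).filter (fun q => perp q.1 q.2),
      oc (fun u => u = b.map (rt q.1 q.2)) w := (card_le_card hsub).trans card_biUnion_le
  have h2 : 36 * ∑ q ∈ (univ : Finset (Dir × Dir)).filter (fun q => perp q.1 q.2),
      oc (fun u => u = b.map (rt q.1 q.2)) w <
      36 * oc (RS b) w := by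
    have hne : ((univ : Finset (Dir × Dir)).filter (fun q => perp q.1 q.2)).Nonempty :=
      ⟨(.xp, .zp), by simp [h0]⟩
    rw [Finset.mul_sum]
    calc ∑ q ∈ (univ : Finset (Dir × Dir)).filter (fun q => perp q.1 q.2),
        36 * oc (fun u => u = b.map (rt q.1 q.2)) w
        < ∑ q ∈ (univ : Finset (Dir × Dir)).filter (fun q => perp q.1 q.2), oc (RS b) w := by
          refine Finset.sum_lt_sum_of_nonempty hne ?_
          intro q hq
          rw [mem_filter] at hq
          exact hcon q.1 q.2 hq.2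
      _ = ((univ : Finset (Dir × Dir)).filter (fun q => perp q.1 q.2)).card * oc (RS b) w := by
          rw [Finset.sum_const, smul_eq_mul]
      _ ≤ 36 * oc (RS b) w := by
          apply Nat.mul_le_mul_right
          refine (card_filter_le _ _).trans ?_
          rw [card_univ, Fintype.card_prod]
          have : Fintype.card Dir = 6 := rfl
          rw [this]
  omega

/-- one copy in a half-space polygon gives many copies -/
theorem have_one {Q : List Dir → Prop} (hQ : KClass Q) (hc : CSum Q) {π v : List Dir}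
    (hv : HS v) (hQv : Q (.zm :: v)) (hπ0 : π ≠ []) (hπ : π <:+: v) : Have Q [π] := by
  intro k
  have hne : ∃ w, SAP w ∧ Q w := ⟨_, hv.1, hQv⟩
  obtain ⟨c, hc0, H⟩ := typ_main (Q := Q) (smR_of hv) (inc_csum hQ hc hv.1 hQv)
    (shift_csum hQ hne hc)
  obtain ⟨b, hb⟩ : ∃ b, b = blk (2 * v.length + 4) v := ⟨_, rfl⟩
  rw [← hb] at H
  obtain ⟨M, hM⟩ : ∃ M : ℕ, M = 36 * ((b.length + 1) * (k + (2 * π.length + 2))) := ⟨_, rfl⟩
  have ht : Tendsto (fun j : ℕ => c * (2 * j : ℝ) ^ (2 / 3 : ℝ)) atTop atTop := by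
    apply Tendsto.const_mul_atTop hc0
    refine (tendsto_rpow_atTop (by norm_num)).comp ?_
    exact Tendsto.const_mul_atTop (by norm_num) tendsto_natCast_atTop_atTop
  obtain ⟨j, h1, h2, h3, h4⟩ := (H.and ((ht.eventually_gt_atTop (M : ℝ)).and
    ((class_pos Q hQ hne).and (eventually_gt_atTop 0)))).exists
  have h5 := h1 trivial
  have ha : (0 : ℝ) < a Q (2 * j) := h3.trans_le (GEN.pn_le_a Q j h4)
  have hx : 0 < c * (2 * j : ℝ) ^ (2 / 3 : ℝ) :=
    lt_of_le_of_lt (Nat.cast_nonneg M) h2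
  have h6 : (((K Q (2 * j)).filter (fun w => (oc (RS b) w : ℝ) <
        c * (2 * j : ℝ) ^ (2 / 3 : ℝ))).card : ℝ) < (K Q (2 * j)).card := by
    refine h5.trans_lt ?_
    have h7 : Real.exp (-(c * (2 * j : ℝ) ^ (2 / 3 : ℝ))) < 1 := by
      rw [Real.exp_lt_one_iff]
      linarith
    calc Real.exp (-(c * (2 * j : ℝ) ^ (2 / 3 : ℝ))) * a Q (2 * j) < 1 * a Q (2 * j) :=
          mul_lt_mul_of_pos_right h7 ha
      _ = _ := one_mul _
  have h7 : ∃ w ∈ K Q (2 * j), M < oc (RS b) w := by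
    by_contra hcon
    push Not at hcon
    have h8 : (K Q (2 * j)).filter (fun w => (oc (RS b) w : ℝ) <
        c * (2 * j : ℝ) ^ (2 / 3 : ℝ)) = K Q (2 * j) := by
      rw [Finset.filter_eq_self]
      intro w hw
      have h9 : (oc (RS b) w : ℝ) ≤ M := by exact_mod_cast hcon w hw
      exact h9.trans_lt h2
    rw [h8] at h6
    exact lt_irrefl _ h6
  obtain ⟨w, hw, hMw⟩ := h7
  obtain ⟨-, hw1, hw2⟩ := mem_K.1 hw
  obtain ⟨d, f, hdf, h8⟩ := rs_pigeon b w
  obtain ⟨d', f', hdf', hinv⟩ := inv_rt hdf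
  obtain ⟨r1, r2⟩ := T_rt_proof d' f' hdf' w hw1
  have r3 : Q (w.map (rt d' f')) := hQ.same _ _ hw1 r1 r2 hw2
  have h9 := oc_map1 (b.map (rt d f)) w (rt d' f')
  rw [(hinv b).1] at h9
  have h10 := oc_factor (S := fun u => u = b) (S' := fun u => u = π) (ℓ := b.length)
    (by rintro u rfl; exact le_refl _)
    (by
      rintro u rfl
      refine ⟨π, rfl, by simpa using hπ0, ?_⟩
      rw [hb]
      exact hπ.trans (blk_infix _ _)) (w.map (rt d' f'))
  obtain ⟨v', g1, g2, g3⟩ := cut_oc hQ r1 r3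
  refine ⟨v', g1, g2, ?_⟩
  intro π' hπ'
  rw [List.mem_singleton] at hπ'
  subst hπ'
  have g4 := g3 (fun u => u = π') π'.length (by rintro u rfl; exact le_refl _)
  have h11 : (b.length + 1) * (k + (2 * π'.length + 2)) ≤
      (b.length + 1) * oc (fun u => u = π') (w.map (rt d' f')) := by omega
  have h12 := Nat.le_of_mul_le_mul_left h11 (Nat.succ_pos _)
  omega

/-- the pattern theorem, from polygons with many copies -/
theorem pat {Q Q' : List Dir → Prop} {good : ℕ → Prop} (hQ' : KClass Q') (hc' : CSum Q')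
    {π : List Dir} (hπ0 : π ≠ []) (hπ : Have Q' [π])
    (hinc : ∀ x : List Dir, SAP (.zm :: x) → Q' (.zm :: x) → ∀ (w u : List Dir) (N : ℕ), SAP w →
      Q w → SAP u → SumQ (vl w) (fun _ => vl (.zm :: x)) N (vl u) → Q u) (hsh : Shift Q good) :
    ∃ c : ℝ, 0 < c ∧ ∀ᶠ j : ℕ in atTop, good j →
      (((K Q (2 * j)).filter (fun w => (oc (fun u => u = π) w : ℝ) <
        c * (2 * j : ℝ) ^ (2 / 3 : ℝ))).card : ℝ) ≤
        Real.exp (-(c * (2 * j : ℝ) ^ (2 / 3 : ℝ))) * a Q (2 * j) := by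
  obtain ⟨x, hx1, hx2, hx3⟩ := have_all hQ' hc' hπ
  obtain ⟨c, hc0, H⟩ := typ_main (Q := Q) (smR_of hx1) (hinc x hx1.1 hx2) hsh
  obtain ⟨b, hb⟩ : ∃ b, b = blk (2 * x.length + 4) x := ⟨_, rfl⟩
  rw [← hb] at H
  refine ⟨c / (b.length + 1), by positivity, ?_⟩
  filter_upwards [H] with j hj hg
  have h1 := hj hg
  obtain ⟨y, hy⟩ : ∃ y : ℝ, y = (2 * j : ℝ) ^ (2 / 3 : ℝ) := ⟨_, rfl⟩
  rw [← hy] at h1 ⊢
  have hy0 : 0 ≤ y := by rw [hy]; positivity
  have hb0 : (0 : ℝ) < (b.length : ℝ) + 1 := by positivity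
  have hsub : (K Q (2 * j)).filter (fun w => (oc (fun u => u = π) w : ℝ) <
      c / (b.length + 1) * y) ⊆ (K Q (2 * j)).filter (fun w => (oc (RS b) w : ℝ) < c * y) := by
    intro w hw
    rw [mem_filter] at hw ⊢
    refine ⟨hw.1, ?_⟩
    have h2 := oc_factor (S := RS b) (S' := fun u => u = π) (ℓ := b.length) (rs_len b) (by
      rintro u ⟨d, f, hdf, rfl⟩
      refine ⟨π, rfl, by simpa using hπ0, ?_⟩
      obtain ⟨d', f', hdf', hinv⟩ := inv_rt hdf
      have h3 : π.map (rt d' f') <:+: b := by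
        rw [hb]
        exact (hx3 d' f' hdf').trans (blk_infix _ _)
      have h4 := h3.map (rt d f)
      rwa [(hinv π).2] at h4) w
    have h3 : (oc (RS b) w : ℝ) ≤ ((b.length : ℝ) + 1) * oc (fun u => u = π) w := by
      exact_mod_cast h2
    refine h3.trans_lt ?_
    have h4 := mul_lt_mul_of_pos_left hw.2 hb0
    have e : ((b.length : ℝ) + 1) * (c / (b.length + 1) * y) = c * y := by
      field_simp
    rwa [e] at h4
  have h2 : (((K Q (2 * j)).filter (fun w => (oc (fun u => u = π) w : ℝ) <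
      c / (b.length + 1) * y)).card : ℝ) ≤
      ((K Q (2 * j)).filter (fun w => (oc (RS b) w : ℝ) < c * y)).card := by
    exact_mod_cast card_le_card hsub
  refine h2.trans (h1.trans (mul_le_mul_of_nonneg_right (Real.exp_le_exp.2 ?_)
    (Nat.cast_nonneg _)))
  have h3 : c / (b.length + 1) ≤ c := div_le_self hc0.le (by
    have : (0 : ℝ) ≤ (b.length : ℝ) := Nat.cast_nonneg _
    linarith)
  have h4 := mul_le_mul_of_nonneg_right h3 hy0
  linarith

/-- a rotation that moves a point with a large coordinate to the left -/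
theorem far_left (m : ℕ) (p : Z3) (h : ¬ near m p 0) : ∃ d f : Dir, perp d f ∧
    (Rp d f p).1 < -(m : ℤ) := by
  unfold near at h
  have h' : p.1 < -(m : ℤ) ∨ (m : ℤ) < p.1 ∨ p.2.1 < -(m : ℤ) ∨ (m : ℤ) < p.2.1 ∨
      p.2.2 < -(m : ℤ) ∨ (m : ℤ) < p.2.2 := by
    by_contra hcon
    push Not at hcon
    apply h
    obtain ⟨h1, h2, h3, h4, h5, h6⟩ := hcon
    simp only [Prod.fst_zero, Prod.snd_zero, sub_zero]
    exact ⟨abs_le.2 ⟨h1, h2⟩, abs_le.2 ⟨h3, h4⟩, abs_le.2 ⟨h5, h6⟩⟩
  rcases h' with h' | h' | h' | h' | h' | h'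
  · exact ⟨.xp, .zp, by decide, by simpa [Rp, vec, cr] using h'⟩
  · exact ⟨.xm, .zp, by decide, by simpa [Rp, vec, cr] using h'⟩
  · exact ⟨.ym, .zp, by decide, by simpa [Rp, vec, cr] using h'⟩
  · exact ⟨.yp, .zp, by decide, by simpa [Rp, vec, cr] using h'⟩
  · exact ⟨.zp, .xp, by decide, by simpa [Rp, vec, cr] using h'⟩
  · exact ⟨.zp, .xm, by decide, by simpa [Rp, vec, cr] using h'⟩

/-- a word in a long polygon occurs, after a rotation, in a half-space polygon -/
theorem long {Q : List Dir → Prop} (hQ : KClass Q) {π w : List Dir} (hw : SAP w) (hQw : Q w)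
    (hπ : π <:+: w) (hl : (2 * π.length + 1) ^ 3 < w.length) :
    ∃ v, HS v ∧ Q (.zm :: v) ∧ ∃ d f : Dir, perp d f ∧ π.map (rt d f) <:+: v := by
  obtain ⟨X, Y, rfl⟩ := hπ
  rw [List.append_assoc] at hw hQw
  obtain ⟨s1, s2⟩ := shiftn hQ hw hQw
  rw [List.append_assoc] at s1 s2
  obtain ⟨Z, hZ⟩ : ∃ Z, Z = Y ++ X := ⟨_, rfl⟩
  rw [← hZ] at s1 s2
  have hlen : (2 * π.length + 1) ^ 3 < (π ++ Z).length := by
    rw [hZ]
    simp only [List.length_append] at hl ⊢
    omega
  -- a vertex outside of the box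
  have h1 : ∃ p ∈ path (π ++ Z), ¬ near π.length p 0 := by
    by_contra hcon
    push Not at hcon
    have h2 : (path (π ++ Z)).tail.toFinset ⊆ K3YCNT.box π.length 0 := by
      intro p hp
      rw [List.mem_toFinset] at hp
      exact K3YCNT.mem_box.2 (hcon p (List.mem_of_mem_tail hp))
    have h3 := card_le_card h2
    rw [List.toFinset_card_of_nodup s1.2.2, K3YCNT.card_box, List.length_tail, path_length] at h3
    omega
  obtain ⟨p, hp, hpn⟩ := h1
  obtain ⟨d, f, hdf, hfar⟩ := far_left _ _ hpn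
  obtain ⟨r1, r2⟩ := T_rt_proof d f hdf _ s1
  have r3 : Q ((π ++ Z).map (rt d f)) := hQ.same _ _ s1 r1 r2 s2
  have hpath := ((T_rtc_proof d f hdf).2.2.1 (π ++ Z)).2
  obtain ⟨w2, hw2⟩ : ∃ w2, w2 = (π ++ Z).map (rt d f) := ⟨_, rfl⟩
  have hp2 : Rp d f p ∈ path w2 := by
    rw [hw2, hpath]
    exact List.mem_map_of_mem hp
  have hpre : π.map (rt d f) <+: w2 := by
    rw [hw2, List.map_append]
    exact List.prefix_append _ _
  rw [← hw2] at r1 r3
  obtain ⟨i, i1, i2, i3⟩ := QR.exists_P (-1) (Or.inr rfl) w2 r1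
  have i4 : (pos (w2.drop (i + 1))).1 < -(π.length : ℤ) := by
    have := i3 _ hp2
    linarith
  have i5 : π.length ≤ i := by
    by_contra hcon
    push Not at hcon
    have e1 : pos (w2.take (i + 1)) + pos (w2.drop (i + 1)) = 0 := by
      rw [← pos_append, List.take_append_drop]
      exact r1.2.1
    have e2 := (K3YINS.pos_le (w2.take (i + 1))).1
    have e3 : (w2.take (i + 1)).length ≤ π.length := by
      rw [List.length_take]
      omega
    have e4 : ((w2.take (i + 1)).length : ℤ) ≤ π.length := by exact_mod_cast e3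
    have e5 := congrArg Prod.fst e1
    have e6 : (pos (w2.take (i + 1)) + pos (w2.drop (i + 1))).1 =
      (pos (w2.take (i + 1))).1 + (pos (w2.drop (i + 1))).1 := rfl
    rw [e6] at e5
    change (pos (w2.take (i + 1))).1 + (pos (w2.drop (i + 1))).1 = 0 at e5
    rw [abs_le] at e2
    omega
  have hsp : w2 = w2.take i ++ w2.getD i .xp :: w2.drop (i + 1) := by
    rw [← drop_eq_getD_cons w2 i i1, List.take_append_drop]
  have hA : π.map (rt d f) <+: w2.take i := by
    refine List.prefix_of_prefix_length_le hpre (List.take_prefix i w2) ?_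
    rw [List.length_map, List.length_take]
    omega
  have r1' := r1
  have r3' := r3
  rw [hsp] at r1' r3'
  obtain ⟨v', g1, g2, g3⟩ := cut hQ r1' r3' i2 (fun q hq => by
    rw [← hsp] at hq
    have := i3 q hq
    linarith)
  refine ⟨v', g1, g2, d, f, hdf, ?_⟩
  exact (hA.isInfix.trans (List.suffix_append _ _).isInfix).trans g3

/-- a word in a long polygon occurs many times in suitable half-space polygons -/
theorem have_long {Q : List Dir → Prop} (hQ : KClass Q) (hc : CSum Q) {π w : List Dir}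
    (hw : SAP w) (hQw : Q w) (hπ0 : π ≠ []) (hπ : π <:+: w)
    (hl : (2 * π.length + 1) ^ 3 < w.length) : Have Q [π] := by
  obtain ⟨v, h1, h2, d, f, hdf, h3⟩ := long hQ hw hQw hπ hl
  have h4 : Have Q [π.map (rt d f)] := have_one hQ hc h1 h2 (by simpa using hπ0) h3
  obtain ⟨d', f', hdf', hinv⟩ := inv_rt hdf
  have h5 := have_rot hQ h4 hdf'
  rwa [List.map_singleton, (hinv π).1] at h5

end

end PTK
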