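import Pool.Agent.L5helper76.PT.Ana

/-!
# Typical polygons of a class closed under connected sums have many summands
-/

set_option autoImplicit false

namespace PTK

open Finset Filter Topology KN KNB KNM
open scoped Classical

noncomputable section

open K3YMUL (EZ_nil EZ_cons EZ_append blk_pos blk_le)

/-- `l` is a connected sum of a lattice knot and `r` copies of `κ` -/
def Has (κ : List V) (r : ℕ) (l : List V) : Prop :=
  ∃ k' : List V, (∃ w, SAP w ∧ Same (vl w) k') ∧ SumQ k' (fun _ => κ) r l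

theorem has_same {κ l l' : List V} {r : ℕ} (h : Has κ r l) (hs : Same l l') : Has κ r l' := by
  obtain ⟨k', h1, h2⟩ := h
  exact ⟨k', h1, sumQ_same h2 hs⟩

theorem has_pred {κ : List V} : ∀ {r : ℕ} {l : List V}, Has κ (r + 1) l → Has κ r l
  | 0, l, ⟨k', hk', l1, v, l2, hF, h2, h3, h4⟩ =>
    ⟨l, ⟨KN.join l1 v l2, S_glueSAP_proof l1 v l2 hF, h4.symm⟩, Same.refl _⟩
  | r + 1, l, ⟨k', hk', l1, v, l2, hF, h2, h3, h4⟩ => by
    obtain ⟨k'', h5, h6⟩ := has_pred (r := r) (l := vl (l1 ++ .zp :: l2)) ⟨k', hk', h2⟩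
    exact ⟨k'', h5, l1, v, l2, hF, h6, h3, h4⟩

theorem has_le {κ l : List V} {r s : ℕ} (hrs : r ≤ s) (h : Has κ s l) : Has κ r l := by
  induction s with
  | zero =>
    have : r = 0 := by omega
    rw [this]
    exact h
  | succ s ih =>
    rcases Nat.lt_or_ge r (s + 1) with h1 | h1
    · exact ih (by omega) (has_pred h)
    · have : r = s + 1 := by omega
      rw [this]
      exact h

/-- the main inequality for connected sums, uniformly in the types of the polygons -/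
theorem mainB (κ : List V) (hκ : ∃ w, SAP w ∧ Same (vl w) κ) :
    ∃ (c : ℝ) (C β n0 : ℕ), 0 < c ∧ β % 2 = 0 ∧
    ∀ n ≥ n0, ∀ (r N : ℕ) (G : Finset (List Dir)), (N : ℝ) ≤ c * (n : ℝ) ^ (2 / 3 : ℝ) →
      (r : ℝ) ≤ c * (n : ℝ) ^ (2 / 3 : ℝ) →
      (∀ w ∈ G, SAP w ∧ w.length = n ∧ ¬ Has κ r (vl w)) →
      (c * (n : ℝ) ^ (2 / 3 : ℝ)) ^ N * G.card ≤ ((C * (r + N) : ℕ) : ℝ) ^ N *
        a (fun u => ∃ w ∈ G, SumQ (vl w) (fun _ => κ) N (vl u)) (n + β * N) := by
  obtain ⟨L, x, hx, hxκ⟩ := T_vex_proof κ hκ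
  obtain ⟨R, hR, hLR⟩ := d_LL (2 * L + 4) L le_rfl
  set T := 2 * L + 4 with hT
  set B := (blk 0 x).length with hB
  have hv : SmB L B (fun _ => x) := fun _ => ⟨hx, le_refl _⟩
  obtain ⟨c, δ, hc, hδ, n0, h0⟩ := cntP T L B R hLR hR
  obtain ⟨c', hc'd⟩ : ∃ c' : ℝ, c' = min δ c := ⟨_, rfl⟩
  have hc'0 : 0 < c' := by rw [hc'd]; exact lt_min hδ hc
  have hc'1 : c' ≤ δ := by rw [hc'd]; exact min_le_left _ _
  have hc'2 : c' ≤ c := by rw [hc'd]; exact min_le_right _ _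
  set D := B + 2 * T with hD
  set b := (blk T x).length with hb
  have hb0 : 0 < b := blk_pos T x
  -- `r D + 4 ≤ n` for `r ≤ c' n ^ (2 / 3)`
  have hev : ∀ᶠ n : ℕ in atTop, (D : ℝ) * c' * (n : ℝ) ^ (2 / 3 : ℝ) + 4 ≤ n := by
    filter_upwards [pow_small ((D : ℝ) * c') (show (0 : ℝ) < 1 / 2 by norm_num),
      eventually_ge_atTop 8] with n h1 h2
    have h3 : (8 : ℝ) ≤ n := by exact_mod_cast h2
    linarith
  obtain ⟨n1, hn1⟩ := eventually_atTop.1 hev
  refine ⟨c', 36 * (2 * D), b - 1, max n0 n1, hc'0, ?_, ?_⟩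
  · have hlen : (blk T x).length = 2 * (T + 1) + x.length := by
      unfold blk
      simp only [List.length_append, List.length_replicate]
      omega
    have hodd : (x.length + 1) % 2 = 0 := by
      have h2 := even_of_closed (hx.1.2.1)
      simpa using h2
    omega
  intro n hn r N G hN hr hG
  have hnn0 : n0 ≤ n := (le_max_left _ _).trans hn
  have hnn1 := hn1 n ((le_max_right _ _).trans hn)
  have hx0 : 0 ≤ (n : ℝ) ^ (2 / 3 : ℝ) := by positivity
  have hN' : (N : ℝ) ≤ δ * (n : ℝ) ^ (2 / 3 : ℝ) :=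
    hN.trans (mul_le_mul_of_nonneg_right hc'1 hx0)
  have hrD : r * D + 4 ≤ n := by
    have h1 : (r : ℝ) * D ≤ c' * (n : ℝ) ^ (2 / 3 : ℝ) * D :=
      mul_le_mul_of_nonneg_right hr (Nat.cast_nonneg _)
    have h2 : ((r * D + 4 : ℕ) : ℝ) ≤ n := by
      push_cast
      linarith
    exact_mod_cast h2
  obtain ⟨P, hP⟩ : ∃ P : ℕ → List Sz → Prop, P = fun _ _ => True := ⟨_, rfl⟩
  have hKp : Kp P T L (fun _ => x) := by
    intro k N n W _ d f A B _ _
    rw [hP]
    trivial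
  have h1 := zpow (P := P) (G := G) hc (fun k N hN => h0 n hnn0 k _ _ hv hKp N hN) N
    hN' (fun w hw => ⟨(hG w hw).1, (hG w hw).2.1, by rw [hP]; trivial⟩)
  set Z := ZP P G T L (fun _ => x) N n with hZ
  have h2 : Z.card ≤ (36 * ((N + r) * (2 * D))) ^ N * (Z.image (EZ T (fun _ => x))).card := by
    apply Finset.card_le_mul_card_image
    intro u _
    rcases (Z.filter (fun W => EZ T (fun _ => x) W = u)).eq_empty_or_nonempty with he | ⟨W0, hW0⟩
    · rw [he]; simp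
    · rw [mem_filter, hZ, mem_ZP] at hW0
      obtain ⟨⟨w0, hw0, hW0⟩, hu⟩ := hW0
      obtain ⟨hl0, hlab0, hV0⟩ := mem_VQ.1 (mem_VP.1 hW0).1
      have hm : ∀ k' : List V, (∃ w, SAP w ∧ Same (vl w) k') →
          ¬ SumQ k' (fun _ => κ) r (rep w0) := by
        intro k' hk' hs
        exact (hG w0 hw0).2.2 ⟨k', hk', sumQ_same hs (rep_same w0).symm⟩
      obtain ⟨R', hR1, hR2⟩ := KNB.few hv (i := 0) hxκ hm hV0 (by rw [hl0]; exact hrD)
        (Po T (fun _ => x) 0 W0) (by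
          intro A₀ B₀ i₀ d₀ f₀ h0
          have := mem_Po T (fun _ => x) A₀ B₀ 0 i₀ d₀ f₀
          rw [zero_add] at this
          rw [h0]
          exact this)
        (fun p => ∃ W ∈ Z, EZ T (fun _ => x) W = u ∧ p ∈ Po T (fun _ => x) 0 W) (by
          rintro p ⟨W, hW, hwu, hp⟩
          rw [hZ, mem_ZP] at hW
          obtain ⟨w, hw, hW⟩ := hW
          obtain ⟨-, -, hV⟩ := mem_VQ.1 (mem_VP.1 hW).1
          obtain ⟨A, B', i, d, f, e1, e2⟩ := Po_mem T _ W 0 p hp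
          rw [zero_add] at e2
          refine ⟨EZ T (fun _ => x) A, EZ T (fun _ => x) B', d, f, e2.symm, ?_,
            hV.room A B' i d f e1⟩
          rw [hu, ← hwu, e1, EZ_append, EZ_cons]
          simp [szw])
      set J : Finset ℕ := R'.biUnion (fun q => Finset.Ico (q + 1 - D) (q + D)) with hJ
      have hJc : J.card ≤ (N + r) * (2 * D) := by
        refine Finset.card_biUnion_le.trans ?_
        calc ∑ q ∈ R', (Finset.Ico (q + 1 - D) (q + D)).card
            ≤ ∑ _q ∈ R', 2 * D := by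
              refine Finset.sum_le_sum fun q _ => ?_
              rw [Nat.card_Ico]
              omega
          _ = R'.card * (2 * D) := by rw [Finset.sum_const, smul_eq_mul]
          _ ≤ _ := by
              apply Nat.mul_le_mul_right
              have h3 := Po_card T (fun _ => x) W0 0
              rw [hlab0.length_eq, List.length_range] at h3
              omega
      refine (mulJ T (fun _ => x) N J _ u ?_).trans ?_
      · intro W hW
        rw [mem_filter] at hW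
        obtain ⟨hW, hu'⟩ := hW
        have hW' := hW
        rw [hZ, mem_ZP] at hW'
        obtain ⟨w, hw, hW'⟩ := hW'
        obtain ⟨-, hlab, hV⟩ := mem_VQ.1 (mem_VP.1 hW').1
        refine ⟨hu', hlab, ?_⟩
        intro p hp
        obtain ⟨q, hq, hfar⟩ := hR2 p ⟨W, hW, hu', hp⟩
        rw [hJ, Finset.mem_biUnion]
        refine ⟨q, hq, ?_⟩
        unfold far at hfar
        simp only [Finset.mem_Ico]
        omega
      · exact Nat.pow_le_pow_left (Nat.mul_le_mul_left _ hJc) N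
  have h3 : (Z.image (EZ T (fun _ => x))).card ≤
      a (fun u => ∃ w ∈ G, SumQ (vl w) (fun _ => κ) N (vl u)) (n + (b - 1) * N) := by
    unfold a
    apply Finset.card_le_card
    intro u hu
    obtain ⟨W, hW, rfl⟩ := mem_image.1 hu
    rw [hZ, mem_ZP] at hW
    obtain ⟨w, hw, hW⟩ := hW
    obtain ⟨hW1, hlab, hV⟩ := mem_VQ.1 (mem_VP.1 hW).1
    refine mem_K.2 ⟨?_, hV.ext, w, hw, ?_⟩
    · rw [(e_bas T L B _ hv W).2.2.1, hW1]
      congr 1
      rw [(hlab.map _).sum_eq]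
      simp only [List.map_const', List.length_range, List.sum_replicate, smul_eq_mul]
      rw [← hb, mul_comm]
    · exact sumQ_base (rep_same w).symm
        (typ hv N (ks := fun _ => κ) (fun i _ => hxκ) W hlab hV)
  have h4 : (c' * (n : ℝ) ^ (2 / 3 : ℝ)) ^ N * G.card ≤
      (c * (n : ℝ) ^ (2 / 3 : ℝ)) ^ N * G.card := by
    apply mul_le_mul_of_nonneg_right _ (Nat.cast_nonneg _)
    exact pow_le_pow_left₀ (by positivity) (mul_le_mul_of_nonneg_right hc'2 hx0) N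
  have h5 : Z.card ≤ (36 * (2 * D) * (r + N)) ^ N *
      a (fun u => ∃ w ∈ G, SumQ (vl w) (fun _ => κ) N (vl u)) (n + (b - 1) * N) := by
    refine h2.trans (Nat.mul_le_mul (Nat.pow_le_pow_left ?_ N) h3)
    have e : 36 * ((N + r) * (2 * D)) = 36 * (2 * D) * (r + N) := by ring
    omega
  have h6 : (Z.card : ℝ) ≤ ((36 * (2 * D) * (r + N) : ℕ) : ℝ) ^ N *
      a (fun u => ∃ w ∈ G, SumQ (vl w) (fun _ => κ) N (vl u)) (n + (b - 1) * N) := by
    exact_mod_cast h5
  exact h4.trans (h1.trans h6)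

/-- typical polygons have many summands `κ` -/
theorem typ_sum {Q : List Dir → Prop} {good : ℕ → Prop} {κ : List V}
    (hκ : ∃ w, SAP w ∧ Same (vl w) κ)
    (hinc : ∀ (w u : List Dir) (N : ℕ), SAP w → Q w → SAP u →
      SumQ (vl w) (fun _ => κ) N (vl u) → Q u) (hsh : Shift Q good) :
    ∃ c : ℝ, 0 < c ∧ ∀ᶠ j : ℕ in atTop, good j →
      (((K Q (2 * j)).filter (fun w => ¬ Has κ ⌈c * (2 * j : ℝ) ^ (2 / 3 : ℝ)⌉₊ (vl w))).card : ℝ) ≤
        Real.exp (-(c * (2 * j : ℝ) ^ (2 / 3 : ℝ))) * a Q (2 * j) := by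
  obtain ⟨c, C, β, n0, hc, hβ, H⟩ := mainB κ hκ
  obtain ⟨B, hB, hsh⟩ := hsh β hβ c
  obtain ⟨c1, hc1, hc1c, hnum⟩ := num1 C hc hB
  refine ⟨c1 / 2, by positivity, ?_⟩
  have ht : Tendsto (fun j : ℕ => c1 * (2 * j : ℝ) ^ (2 / 3 : ℝ)) atTop atTop := by
    apply Tendsto.const_mul_atTop hc1
    refine (tendsto_rpow_atTop (by norm_num)).comp ?_
    exact Tendsto.const_mul_atTop (by norm_num) tendsto_natCast_atTop_atTop
  filter_upwards [ht.eventually_ge_atTop 2, eventually_ge_atTop (n0 + 1), hsh] with j h1 h2 h3 hg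
  obtain ⟨y, hy⟩ : ∃ y : ℝ, y = (2 * j : ℝ) ^ (2 / 3 : ℝ) := ⟨_, rfl⟩
  have hy' : ((2 * j : ℕ) : ℝ) ^ (2 / 3 : ℝ) = y := by rw [hy]; push_cast; rfl
  rw [← hy] at h1 ⊢
  have hy0 : 0 < y := by
    rw [hy]
    have : (0 : ℝ) < 2 * j := by
      have : (0 : ℝ) < j := by exact_mod_cast (show 0 < j by omega)
      linarith
    positivity
  obtain ⟨N, hN⟩ : ∃ N, N = ⌊c1 * y⌋₊ := ⟨_, rfl⟩
  have hN1 : (N : ℝ) ≤ c1 * y := by rw [hN]; exact Nat.floor_le (by positivity)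
  have hN2 : c1 * y < N + 1 := by rw [hN]; exact Nat.lt_floor_add_one _
  have hN3 : c1 / 2 * y ≤ N := by linarith
  have hN4 : ⌈c1 / 2 * y⌉₊ ≤ N := Nat.ceil_le.2 hN3
  set G := (K Q (2 * j)).filter (fun w => ¬ Has κ N (vl w)) with hG
  have hsub : (K Q (2 * j)).filter (fun w => ¬ Has κ ⌈c1 / 2 * y⌉₊ (vl w)) ⊆ G := by
    intro w hw
    rw [mem_filter] at hw
    rw [hG, mem_filter]
    exact ⟨hw.1, fun h => hw.2 (has_le hN4 h)⟩
  have hNc : (N : ℝ) ≤ c * y := hN1.trans (mul_le_mul_of_nonneg_right hc1c hy0.le)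
  have h4 := H (2 * j) (by omega) N N G (by rw [hy']; exact hNc) (by rw [hy']; exact hNc) (by
    intro w hw
    rw [hG, mem_filter, mem_K] at hw
    exact ⟨hw.1.2.1, hw.1.1, hw.2⟩)
  rw [hy'] at h4
  have h5 : a (fun u => ∃ w ∈ G, SumQ (vl w) (fun _ => κ) N (vl u))
      (2 * j + β * N) ≤ a Q (2 * j + β * N) := by
    unfold a
    apply Finset.card_le_card
    intro u hu
    obtain ⟨h6, h7, w, hw, h8⟩ := mem_K.1 hu
    rw [hG, mem_filter, mem_K] at hw
    exact mem_K.2 ⟨h6, h7, hinc w u N hw.1.2.1 hw.1.2.2 h7 h8⟩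
  have h6 : (a (fun u => ∃ w ∈ G, SumQ (vl w) (fun _ => κ) N (vl u))
      (2 * j + β * N) : ℝ) ≤ B ^ N * a Q (2 * j) := by
    have h7 : (a (fun u => ∃ w ∈ G, SumQ (vl w) (fun _ => κ) N (vl u))
      (2 * j + β * N) : ℝ) ≤ a Q (2 * j + β * N) := by exact_mod_cast h5
    exact h7.trans (h3 hg N (by rw [← hy]; exact hNc))
  have h7 := hnum y (a Q (2 * j)) G.card N hy0 (Nat.cast_nonneg _) hN1
    (h4.trans (mul_le_mul_of_nonneg_left h6 (by positivity)))
  have h8 : (((K Q (2 * j)).filter (fun w => ¬ Has κ ⌈c1 / 2 * y⌉₊ (vl w))).card : ℝ) ≤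
      G.card := by exact_mod_cast card_le_card hsub
  refine h8.trans (h7.trans (mul_le_mul_of_nonneg_right (Real.exp_le_exp.2 ?_) (Nat.cast_nonneg _)))
  linarith

/-- sums with `κ` stay in a class closed under connected sums -/
theorem inc_sum {Q : List Dir → Prop} (hQ : KClass Q) (hc : CSum Q) {κ : List V}
    {w0 : List Dir} (hw0 : SAP w0) (hQ0 : Q w0) (h0 : Same (vl w0) κ) :
    ∀ (w u : List Dir) (N : ℕ), SAP w → Q w → SAP u →
      SumQ (vl w) (fun _ => κ) N (vl u) → Q u :=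
  fun _ u N hw hQw hu h => sums_mem hQ hc hw hQw (Same.refl _) hw0 hQ0 h0 N (vl u) h u hu
    (Same.refl _)

/-- the unit square to the left of its edge `.zp` is unknotted -/
theorem u_left : SAP [Dir.xp, .zm, .xm, .zp] ∧ U [Dir.xp, .zm, .xm, .zp] := by
  have h := (GEN.rot_of U (GEN.kt_class sq) sqw c_sq.2.1 3).1 (Or.inl (Same.refl _))
  have h2 := ((c_words sqw c_sq.2.1).2.2 3).1
  exact ⟨h2, h⟩

/-- a knot without inverse is not trivial -/
theorem ninv_not_u {κ : List V} (h : NonInv κ) {v : List Dir} (hv : SAP (.zm :: v))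
    (hv0 : ∀ p ∈ path v, 0 ≤ p.1) (hs : Same (vl (.zm :: v)) κ) : ¬ U (.zm :: v) := by
  intro hU
  obtain ⟨h1, h2⟩ := u_left
  have hF : Facing [Dir.xp, .zm, .xm] v [] := by
    refine ⟨h1, ?_, hv, hv0⟩
    decide
  have h3 := c_glue1 _ _ _ hF (GEN.u_same hU)
  exact h _ _ _ hF hs (Or.inl (h3.trans (GEN.u_same h2)))

end

end PTK
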